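import Mathlib

/-!
Embeddings of number fields into the `p`-adic numbers.
-/

set_option autoImplicit false
set_option linter.unusedSectionVars false

open Polynomial NumberField

namespace Pool.Agent.Helper27.LG

section
variable {K : Type} [Field K] [NumberField K]

/-- a nonzero algebraic integer divides a positive integer -/
theorem dvd_nat (y : 𝓞 K) (hy : y ≠ 0) : ∃ D : ℕ, 0 < D ∧ y ∣ (D : 𝓞 K) := by
  refine ⟨Ideal.absNorm (Ideal.span {y}), ?_, ?_⟩
  · apply Nat.pos_of_ne_zero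
    rw [Ne, Ideal.absNorm_eq_zero_iff, Ideal.span_singleton_eq_bot]
    exact hy
  · exact Ideal.mem_span_singleton.1 (Ideal.absNorm_mem _)

/-- an integral primitive element -/
theorem exists_integral_primitive : ∃ θ : 𝓞 K, IntermediateField.adjoin ℚ {(θ : K)} = ⊤ := by
  obtain ⟨α, hα⟩ := Field.exists_primitive_element ℚ K
  have halg : IsAlgebraic ℤ α := (IsFractionRing.isAlgebraic_iff ℤ ℚ K).2
    (Algebra.IsAlgebraic.isAlgebraic α)
  obtain ⟨y, hy, hint⟩ := halg.exists_integral_multiple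
  refine ⟨⟨y • α, hint⟩, ?_⟩
  rw [eq_top_iff, ← hα]
  apply IntermediateField.adjoin_le_iff.2
  rintro x hx
  obtain rfl : x = α := hx
  have h1 : (y • x) ∈ IntermediateField.adjoin ℚ {(((⟨y • x, hint⟩ : 𝓞 K)) : K)} :=
    IntermediateField.mem_adjoin_simple_self ℚ _
  have h2 : ((y : ℚ)⁻¹ • (y • x)) ∈ IntermediateField.adjoin ℚ {(((⟨y • x, hint⟩ : 𝓞 K)) : K)} :=
    IntermediateField.smul_mem _ h1
  have h3 : ((y : ℚ)⁻¹ • (y • x)) = x := by
    rw [Algebra.smul_def, zsmul_eq_mul, map_inv₀, map_intCast, ← mul_assoc, inv_mul_cancel₀,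
      one_mul]
    exact_mod_cast hy
  rwa [h3] at h2

/-- If an integral primitive element is mapped to the prime field, there is an embedding into the
`p`-adic numbers. -/
theorem exists_emb (K : Type) [Field K] [NumberField K] : ∃ (θ : 𝓞 K) (D : ℕ), 0 < D ∧
    ∀ (p : ℕ) [Fact p.Prime], ¬ p ∣ D → ∀ (k : Type) [Field k] [CharP k p] [Algebra (ZMod p) k]
      (φ : 𝓞 K →+* k), (∃ r : ZMod p, algebraMap (ZMod p) k r = φ θ) → Nonempty (K →+* ℚ_[p]) := by
  obtain ⟨θ, hθ⟩ := exists_integral_primitive (K := K)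
  have hint : IsIntegral ℤ (θ : K) := θ.2
  have hintQ : IsIntegral ℚ (θ : K) := hint.tower_top
  set g : ℤ[X] := minpoly ℤ (θ : K) with hg
  have hgQ : minpoly ℚ (θ : K) = g.map (algebraMap ℤ ℚ) :=
    minpoly.isIntegrallyClosed_eq_field_fractions' ℚ hint
  have hsep : (minpoly ℚ (θ : K)).Separable :=
    Algebra.IsSeparable.isSeparable ℚ (θ : K)
  have hroot : aeval θ g = 0 := by
    apply RingOfIntegers.ext
    have h1 := minpoly.aeval ℤ (θ : K)
    rw [← hg] at h1
    have h2 : aeval ((θ : K)) g = ((aeval θ g : 𝓞 K) : K) := by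
      have := aeval_algebraMap_apply K θ g
      exact this
    rw [← h2, h1]
    rfl
  have hder : aeval θ (derivative g) ≠ 0 := by
    intro h
    have h2 : aeval ((θ : K)) (derivative g) = ((aeval θ (derivative g) : 𝓞 K) : K) := by
      have := aeval_algebraMap_apply K θ (derivative g)
      exact this
    have h3 : aeval ((θ : K)) (derivative (minpoly ℚ (θ : K))) ≠ 0 :=
      hsep.aeval_derivative_ne_zero (minpoly.aeval ℚ (θ : K))
    apply h3
    rw [hgQ, derivative_map, aeval_map_algebraMap, h2, h]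
    rfl
  obtain ⟨D, hD, hdvd⟩ := dvd_nat _ hder
  refine ⟨θ, D, hD, ?_⟩
  intro p hp hpD k _ _ _ φ ⟨r, hr⟩
  have hgr : (aeval r g : ZMod p) = 0 := by
    apply (algebraMap (ZMod p) k).injective
    rw [map_zero, ← aeval_algebraMap_apply, hr]
    have h1 : aeval (φ θ) g = φ (aeval θ g) := by
      rw [aeval_def, aeval_def, hom_eval₂]
      congr 1
      exact RingHom.ext_int _ _
    rw [h1, hroot, map_zero]
  have hgd : (aeval r (derivative g) : ZMod p) ≠ 0 := by
    intro h
    have h0 : φ (aeval θ (derivative g)) = 0 := by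
      have h1 : aeval (φ θ) (derivative g) = φ (aeval θ (derivative g)) := by
        rw [aeval_def, aeval_def, hom_eval₂]
        congr 1
        exact RingHom.ext_int _ _
      rw [← h1, ← hr, aeval_algebraMap_apply, h, map_zero]
    obtain ⟨w, hw⟩ := hdvd
    have h1 : ((D : ℕ) : k) = 0 := by
      rw [← map_natCast φ, hw, map_mul, h0, zero_mul]
    rw [CharP.cast_eq_zero_iff k p] at h1
    exact hpD h1
  obtain ⟨a, ha⟩ : ∃ a : ℤ_[p], PadicInt.toZMod a = r := by
    refine ⟨(r.val : ℤ_[p]), ?_⟩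
    rw [map_natCast, ZMod.natCast_zmod_val]
  have hmod : ∀ f : ℤ[X], PadicInt.toZMod (aeval a f) = aeval r f := by
    intro f
    rw [aeval_def, aeval_def, hom_eval₂, ha]
    congr 1
    exact RingHom.ext_int _ _
  have hlt : ‖(aeval a g : ℤ_[p])‖ < 1 := by
    have h1 : PadicInt.toZMod (aeval a g : ℤ_[p]) = 0 := by rw [hmod, hgr]
    have h2 : (aeval a g : ℤ_[p]) ∈ RingHom.ker (PadicInt.toZMod (p := p)) := h1
    rw [PadicInt.ker_toZMod, IsLocalRing.mem_maximalIdeal, PadicInt.mem_nonunits] at h2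
    exact h2
  have hone : ‖(aeval a (derivative g) : ℤ_[p])‖ = 1 := by
    by_contra hne
    have h1 : ‖(aeval a (derivative g) : ℤ_[p])‖ < 1 := lt_of_le_of_ne (PadicInt.norm_le_one _) hne
    have h2 : (aeval a (derivative g) : ℤ_[p]) ∈ RingHom.ker (PadicInt.toZMod (p := p)) := by
      rw [PadicInt.ker_toZMod, IsLocalRing.mem_maximalIdeal, PadicInt.mem_nonunits]
      exact h1
    apply hgd
    rw [← hmod]
    exact h2
  obtain ⟨z, hz, -⟩ := hensels_lemma (F := g) (a := a) (by rw [hone, one_pow]; exact hlt)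
  have hzQ : (z : ℚ_[p]) ∈ (minpoly ℚ (θ : K)).aroots ℚ_[p] := by
    rw [mem_aroots]
    refine ⟨minpoly.ne_zero hintQ, ?_⟩
    rw [hgQ, aeval_map_algebraMap]
    have h1 : aeval ((z : ℚ_[p])) g = ((aeval z g : ℤ_[p]) : ℚ_[p]) := by
      have := aeval_algebraMap_apply ℚ_[p] z g
      exact this
    rw [h1, hz]
    rfl
  let f : IntermediateField.adjoin ℚ {(θ : K)} →ₐ[ℚ] ℚ_[p] :=
    (IntermediateField.algHomAdjoinIntegralEquiv ℚ hintQ).symm ⟨_, hzQ⟩
  let e : K →+* IntermediateField.adjoin ℚ {(θ : K)} :=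
    ((IntermediateField.equivOfEq hθ.symm).toAlgHom.comp
      (IntermediateField.topEquiv (F := ℚ) (E := K)).symm.toAlgHom).toRingHom
  exact ⟨f.toRingHom.comp e⟩

/-- an embedding into the `p`-adic numbers maps integers to integers -/
theorem exists_int_emb {p : ℕ} [Fact p.Prime] (ι : K →+* ℚ_[p]) :
    ∃ j : 𝓞 K →+* ℤ_[p], Function.Injective j := by
  have h1 : ∀ x : 𝓞 K, ‖ι x‖ ≤ 1 := by
    intro x
    have h2 : IsIntegral ℤ (ι x) := by
      have h3 : IsIntegral ℤ (x : K) := x.2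
      exact h3.map ι.toIntAlgHom
    have h3 : IsIntegral ℤ_[p] (ι x) := h2.tower_top
    obtain ⟨y, hy⟩ := IsIntegrallyClosed.isIntegral_iff.1 h3
    rw [← hy]
    exact PadicInt.norm_le_one y
  let j : 𝓞 K →+* ℤ_[p] :=
    RingHom.codRestrict (ι.comp (algebraMap (𝓞 K) K)) (PadicInt.subring p) (fun x => h1 x)
  refine ⟨j, ?_⟩
  intro x y hxy
  have h2 : ((j x : ℤ_[p]) : ℚ_[p]) = ((j y : ℤ_[p]) : ℚ_[p]) := by rw [hxy]
  have h3 : ι x = ι y := h2
  exact RingOfIntegers.ext (ι.injective h3)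

/-- elements dividing a number prime to `p` become units -/
theorem isUnit_of_dvd {p : ℕ} [Fact p.Prime] {R : Type} [CommRing R] (j : R →+* ℤ_[p]) {y : R}
    {D : ℕ} (hy : y ∣ (D : R)) (hp : ¬ p ∣ D) : IsUnit (j y) := by
  obtain ⟨w, hw⟩ := hy
  have h1 : IsUnit ((D : ℕ) : ℤ_[p]) := by
    by_contra hcon
    rw [PadicInt.not_isUnit_iff] at hcon
    have h2 := (PadicInt.norm_int_lt_one_iff_dvd (p := p) (D : ℤ)).1 (by
      rw [Int.cast_natCast]
      exact hcon)
    exact hp (Int.natCast_dvd_natCast.1 h2)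
  have h2 : ((D : ℕ) : ℤ_[p]) = j y * j w := by
    rw [← map_natCast j, hw, map_mul]
  rw [h2] at h1
  exact isUnit_of_mul_isUnit_left h1

end

end Pool.Agent.Helper27.LG
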