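import Pool.Graph.R_seed8.W401.Cheb.Main
import Pool.Agent.Helper27.LG.Emb

/-!
The use of the Chebotarev density theorem.
-/

set_option autoImplicit false
set_option linter.unusedSectionVars false

open NumberField Polynomial

namespace Pool.Agent.Helper27.LG

section

theorem exists_prime_galois (K L : Type) [Field K] [NumberField K] [Field L] [NumberField L]
    [IsGalois ℚ L] (τ : K →+* L) (g : Gal(L/ℚ)) (hg : ∀ x, g (τ x) = τ x) (m : ℕ)
    (hm : 0 < m) (ζ : L) (hζ : IsPrimitiveRoot ζ m) (h : ℕ) (hgζ : g ζ = ζ ^ h) (B : ℕ) :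
    ∃ p, B < p ∧ ∃ _ : Fact p.Prime, p ≡ h [MOD m] ∧ Nonempty (K →+* ℚ_[p]) := by
  obtain ⟨θ, D, hD, hθ⟩ := exists_emb K
  obtain ⟨p, ⟨hp, hxp⟩, hpB⟩ := (Pool.Agent.W401.Cheb.infinite_frob L g).exists_gt
    (max B (max D m))
  have hpf : Fact p.Prime := ⟨hp⟩
  have hpD : ¬ p ∣ D := by
    intro h1
    have := Nat.le_of_dvd hD h1
    have := le_max_right B (max D m)
    have := le_max_left D m
    omega
  have hpm : ¬ p ∣ m := by
    intro h1
    have := Nat.le_of_dvd hm h1
    have := le_max_right B (max D m)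
    have := le_max_right D m
    omega
  have hBp : B < p := by
    have := le_max_left B (max D m)
    omega
  refine ⟨p, hBp, hpf, ?_⟩
  have hne : Nonempty {φ : 𝓞 L →+* AlgebraicClosure (ZMod p) //
      Pool.Agent.W401.Cheb.HasFrob p φ g} := by
    by_contra hcon
    rw [not_nonempty_iff] at hcon
    apply hxp
    unfold Pool.Agent.W401.Cheb.xp
    rw [dif_pos hp]
    exact Nat.card_of_isEmpty
  obtain ⟨φ, hφ⟩ := hne
  have hφ' : ∀ x : 𝓞 L, φ (g • x) = φ x ^ p := hφ
  have hcoe : ∀ x : 𝓞 L, ((g • x : 𝓞 L) : L) = g (x : L) := fun x => rfl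
  have hchar : CharP (AlgebraicClosure (ZMod p)) p := inferInstance
  constructor
  · -- the residue class
    have hζi : IsIntegral ℤ ζ := hζ.isIntegral hm
    let z : 𝓞 L := ⟨ζ, hζi⟩
    have hz : IsPrimitiveRoot z m := by
      apply IsPrimitiveRoot.of_map_of_injective (f := algebraMap (𝓞 L) L)
      · exact hζ
      · exact RingOfIntegers.coe_injective
    have hgz : g • z = z ^ h := by
      apply RingOfIntegers.ext
      rw [hcoe]
      exact hgζ
    have h1 := hφ' z
    rw [hgz, map_pow] at h1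
    have hne0 : NeZero ((m : ℕ) : 𝓞 L) := ⟨by exact_mod_cast hm.ne'⟩
    have hcyc : (cyclotomic m (𝓞 L)).IsRoot z := isRoot_cyclotomic_iff.2 hz
    have hcyc2 : (cyclotomic m (AlgebraicClosure (ZMod p))).IsRoot (φ z) := by
      rw [← map_cyclotomic m φ]
      exact hcyc.map
    have hne1 : NeZero ((m : ℕ) : AlgebraicClosure (ZMod p)) := ⟨by
      rw [Ne, CharP.cast_eq_zero_iff (AlgebraicClosure (ZMod p)) p]
      exact hpm⟩
    have hprim := isRoot_cyclotomic_iff.1 hcyc2
    have h2 := (hprim.isOfFinOrder hm.ne').pow_eq_pow_iff_modEq.1 h1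
    rw [← hprim.eq_orderOf] at h2
    exact h2.symm
  · apply hθ p hpD (AlgebraicClosure (ZMod p)) (φ.comp (RingOfIntegers.mapRingHom τ))
    have h1 : φ (RingOfIntegers.mapRingHom τ θ) ^ p = φ (RingOfIntegers.mapRingHom τ θ) := by
      rw [← hφ']
      congr 1
      apply RingOfIntegers.ext
      rw [hcoe]
      exact hg θ
    have h2 := (Subfield.mem_bot_iff_pow_eq_self (AlgebraicClosure (ZMod p)) p).2 h1
    rw [← ZMod.fieldRange_castHom_eq_bot p] at h2
    obtain ⟨r, hr⟩ := h2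
    refine ⟨r, ?_⟩
    rw [RingHom.comp_apply, ← hr]
    congr 1
    exact Subsingleton.elim _ _

theorem exists_prime_ext (K M : Type) [Field K] [NumberField K] [Field M] [NumberField M]
    [Algebra K M] (g : M ≃ₐ[K] M) (m : ℕ)
    (hm : 0 < m) (ζ : M) (hζ : IsPrimitiveRoot ζ m) (h : ℕ) (hgζ : g ζ = ζ ^ h) (B : ℕ) :
    ∃ p, B < p ∧ ∃ _ : Fact p.Prime, p ≡ h [MOD m] ∧ Nonempty (K →+* ℚ_[p]) := by
  let g0 : M ≃ₐ[ℚ] M := g.restrictScalars ℚ
  have halg : Algebra.IsAlgebraic ℚ (AlgebraicClosure M) := Algebra.IsAlgebraic.trans ℚ M _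
  have hcl : IsAlgClosure ℚ (AlgebraicClosure M) := ⟨inferInstance, halg⟩
  have hnormal : Normal ℚ (AlgebraicClosure M) := IsAlgClosure.normal ℚ _
  let L := IntermediateField.normalClosure ℚ M (AlgebraicClosure M)
  have hn : Normal ℚ L := normalClosure.normal ℚ M (AlgebraicClosure M)
  have hfd : FiniteDimensional ℚ L := normalClosure.is_finiteDimensional ℚ M (AlgebraicClosure M)
  have hnf : NumberField L := ⟨⟩
  have hgal : IsGalois ℚ L := ⟨⟩
  let g1 : Gal(L/ℚ) := g0.liftNormal L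
  have hg1 : ∀ x : M, g1 (algebraMap M L x) = algebraMap M L (g x) := by
    intro x
    exact AlgEquiv.liftNormal_commutes g0 L x
  refine exists_prime_galois K L ((algebraMap M L).comp (algebraMap K M)) g1 ?_ m hm
    (algebraMap M L ζ) ?_ h ?_ B
  · intro x
    rw [RingHom.comp_apply, hg1, AlgEquiv.commutes]
  · exact hζ.map_of_injective (algebraMap M L).injective
  · rw [hg1, hgζ, map_pow]

end

end Pool.Agent.Helper27.LG
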