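import Pool.Agent.Helper93.IW.Wrap

/-!
Linear groups over a domain with many homomorphisms to the p-adic integers.
-/

set_option autoImplicit false
set_option linter.unusedSectionVars false

open scoped InnerProductSpace ENNReal
open Filter Topology

namespace Pool.Agent.Helper27.LG

open Pool.Agent.H80R2
open Pool.Agent.H80R2.BC (L2 GMat vdim IsTr LInv Equi act kerA)
open Pool.Agent.H812R3
open Pool.Agent.W656.VA
open Pool.Agent.TH107.AT
open Pool.Agent.Helper93.IW

/-- a matrix over the group ring comes from a finitely generated subgroup -/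
theorem fg_red {G ι κ : Type} [Group G] [Fintype ι] [Fintype κ] (A : GMat κ ι G) :
    ∃ (H : Subgroup G), H.FG ∧ ∃ A' : GMat κ ι H, vdim (kerA A) = vdim (kerA A') := by
  classical
  let T : Finset G := Finset.univ.biUnion fun k => Finset.univ.biUnion fun i : ι =>
    (A k i).support
  let H : Subgroup G := Subgroup.closure (T : Set G)
  have hH : H.FG := ⟨T, rfl⟩
  refine ⟨H, hH, fun k i => (A k i).comapDomain H.subtype H.subtype_injective.injOn, ?_⟩
  rw [← vdim_push H.subtype H.subtype_injective]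
  congr 2
  funext k i
  change _ = ((A k i).comapDomain H.subtype H.subtype_injective.injOn).mapDomain H.subtype
  rw [Finsupp.mapDomain_comapDomain _ H.subtype_injective]
  intro x hx
  have : x ∈ H := Subgroup.subset_closure (by
    simp only [T, Finset.coe_biUnion, Set.mem_iUnion]
    exact ⟨k, Finset.mem_univ _, i, Finset.mem_univ _, hx⟩)
  exact ⟨⟨x, this⟩, rfl⟩

/-- many homomorphisms to the `p`-adic integers, congruent modulo `p` -/
def Sep (p : ℕ) [Fact p.Prime] (B : Type) [CommRing B] : Prop :=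
  ∃ a : B →+* ℤ_[p], ∀ x : B, x ≠ 0 → ∃ b : B →+* ℤ_[p],
    (∀ y, (p : ℤ_[p]) ∣ b y - a y) ∧ b x ≠ 0

section eng

variable {p : ℕ} [Fact p.Prime] {G : Type} [Group G] {B : Type} [CommRing B] {n : ℕ}

/-- **The engine.** -/
theorem engine (hp2 : p ≠ 2) (hB : Sep p B) (θ : G →* Matrix (Fin n) (Fin n) B)
    (hθ : Function.Injective θ) {ι κ : Type} [Fintype ι] [Fintype κ] (A : GMat κ ι G) :
    ∃ z : ℤ, (Nat.card (Matrix.GeneralLinearGroup (Fin n) (ZMod p)) : ℝ) * vdim (kerA A) = z := by
  classical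
  obtain ⟨a, ha⟩ := hB
  let φ : G →* Matrix (Fin n) (Fin n) (ZMod p) :=
    (((PadicInt.toZMod (p := p)).comp a).mapMatrix.toMonoidHom).comp θ
  let ψ : G →* (Matrix (Fin n) (Fin n) (ZMod p))ˣ := φ.toHomUnits
  let L : Subgroup G := ψ.ker
  have hfin : Finite (G ⧸ L) := by
    have e := QuotientGroup.quotientKerEquivRange ψ
    exact Finite.of_equiv _ e.symm.toEquiv
  have hdvd : L.index ∣ Nat.card (Matrix.GeneralLinearGroup (Fin n) (ZMod p)) := by
    have h1 : L.index = Nat.card ψ.range := Subgroup.index_ker ψ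
    rw [h1]
    exact Subgroup.card_subgroup_dvd_card ψ.range
  have hL : ∀ g : L, φ g = 1 := by
    intro g
    have h1 : ψ g = 1 := g.2
    exact congrArg Units.val h1
  have hφ : ∀ g i j, φ g i j = PadicInt.toZMod (a (θ g i j)) := fun _ _ _ => rfl
  have hdiv : ∀ (g : L) i j, (p : ℤ_[p]) ∣ a ((θ g - 1) i j) := by
    intro g i j
    have h1 : PadicInt.toZMod (a ((θ g - 1) i j)) = 0 := by
      rw [Matrix.sub_apply, map_sub, map_sub, ← hφ, hL, sub_eq_zero]
      rw [Matrix.one_apply, Matrix.one_apply]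
      split_ifs <;> simp
    obtain ⟨z, hz⟩ := toZMod_eq_zero h1
    exact ⟨z, hz⟩
  have hC : CR ℤ_[p] (p : ℤ_[p]) L := by
    intro x hx
    have hne : θ x ≠ 1 := by
      intro h
      apply hx
      apply Subtype.ext
      exact hθ (by rw [h, Subgroup.coe_one, map_one])
    obtain ⟨i, j, hij⟩ : ∃ i j, (θ x - 1) i j ≠ 0 := by
      by_contra hcon
      push Not at hcon
      exact hne (sub_eq_zero.1 (Matrix.ext hcon))
    obtain ⟨b, hb, hbx⟩ := ha _ hij
    refine ⟨Fin n, inferInstance, inferInstance,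
      ((b.mapMatrix.toMonoidHom).comp θ).comp L.subtype, ?_, ?_⟩
    · intro y i j
      have h1 : ((((b.mapMatrix.toMonoidHom).comp θ).comp L.subtype) y - 1) i j =
          b ((θ y - 1) i j) := by
        rw [Matrix.sub_apply, Matrix.sub_apply, map_sub]
        congr 1
        rw [Matrix.one_apply, Matrix.one_apply]
        split_ifs <;> simp
      rw [h1]
      have h2 := hb ((θ y - 1) i j)
      have h3 := dvd_add h2 (hdiv y i j)
      rwa [sub_add_cancel] at h3
    · intro h
      apply hbx
      have h1 : ((((b.mapMatrix.toMonoidHom).comp θ).comp L.subtype) x) i j =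
          b (θ x i j) := rfl
      rw [Matrix.sub_apply, map_sub, ← h1, h]
      rw [Matrix.one_apply, Matrix.one_apply]
      split_ifs <;> simp
  obtain ⟨z, hz⟩ := CR.dim_fi hp2 L hC A
  obtain ⟨k, hk⟩ := hdvd
  refine ⟨k * z, ?_⟩
  rw [hk]
  push_cast
  rw [← hz]
  ring

end eng

end Pool.Agent.Helper27.LG
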