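import Pool.Graph.R_seed8.H298R2.Kuyk5

/-!
The structure of finitely generated fields of characteristic zero.
-/

set_option autoImplicit false
set_option maxHeartbeats 4000000
set_option synthInstance.maxHeartbeats 400000
set_option linter.unusedSectionVars false

open Polynomial

namespace Pool.Agent.Helper27.LG

section

/-- clearing denominators in rational polynomials -/
theorem clear_den {ι : Type} (P : MvPolynomial ι ℚ) : ∃ (P' : MvPolynomial ι ℤ) (d : ℤ), d ≠ 0 ∧
    MvPolynomial.C (d : ℚ) * P = MvPolynomial.map (Int.castRingHom ℚ) P' := by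
  induction P using MvPolynomial.induction_on with
  | C a =>
    refine ⟨MvPolynomial.C a.num, a.den, by exact_mod_cast a.den_nz, ?_⟩
    rw [MvPolynomial.map_C, ← map_mul]
    congr 1
    rw [eq_intCast, Int.cast_natCast]
    exact Rat.den_mul_eq_num a
  | add P Q hP hQ =>
    obtain ⟨P', d, hd, hP'⟩ := hP
    obtain ⟨Q', e, he, hQ'⟩ := hQ
    refine ⟨MvPolynomial.C e * P' + MvPolynomial.C d * Q', d * e, mul_ne_zero hd he, ?_⟩
    rw [map_add, map_mul, map_mul, ← hP', ← hQ', MvPolynomial.map_C, MvPolynomial.map_C,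
      eq_intCast, eq_intCast, Int.cast_mul, map_mul]
    ring
  | mul_X P i hP =>
    obtain ⟨P', d, hd, hP'⟩ := hP
    refine ⟨P' * MvPolynomial.X i, d, hd, ?_⟩
    rw [map_mul, ← hP', ← mul_assoc, MvPolynomial.map_X]

/-- the integral polynomials in the rational function field -/
noncomputable def i0 (ι : Type) : MvPolynomial ι ℤ →+* FractionRing (MvPolynomial ι ℚ) :=
  (algebraMap (MvPolynomial ι ℚ) (FractionRing (MvPolynomial ι ℚ))).comp
    (MvPolynomial.map (Int.castRingHom ℚ))

theorem i0_injective (ι : Type) : Function.Injective (i0 ι) := by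
  have h1 : Function.Injective (MvPolynomial.map (σ := ι) (Int.castRingHom ℚ)) :=
    MvPolynomial.map_injective _ (RingHom.injective_int _)
  have h2 := IsFractionRing.injective (MvPolynomial ι ℚ) (FractionRing (MvPolynomial ι ℚ))
  exact h2.comp h1

theorem i0_surj (ι : Type) (z : FractionRing (MvPolynomial ι ℚ)) :
    ∃ x y : MvPolynomial ι ℤ, y ≠ 0 ∧ z = i0 ι x / i0 ι y := by
  obtain ⟨P, Q, hQ, rfl⟩ := IsFractionRing.div_surjective (A := MvPolynomial ι ℚ) z
  have hQ0 : Q ≠ 0 := nonZeroDivisors.ne_zero hQ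
  obtain ⟨P', d, hd, hP'⟩ := clear_den P
  obtain ⟨Q', e, he, hQ'⟩ := clear_den Q
  have hd' : (MvPolynomial.C (d : ℚ) : MvPolynomial ι ℚ) ≠ 0 := by
    rw [Ne, MvPolynomial.C_eq_zero]
    exact_mod_cast hd
  have he' : (MvPolynomial.C (e : ℚ) : MvPolynomial ι ℚ) ≠ 0 := by
    rw [Ne, MvPolynomial.C_eq_zero]
    exact_mod_cast he
  have hC : ∀ n : ℤ, MvPolynomial.map (Int.castRingHom ℚ) (MvPolynomial.C n : MvPolynomial ι ℤ) =
      MvPolynomial.C (n : ℚ) := fun n => by rw [MvPolynomial.map_C, eq_intCast]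
  have hne : MvPolynomial.map (Int.castRingHom ℚ) (MvPolynomial.C d * Q') ≠ 0 := by
    rw [map_mul, ← hQ', hC]
    exact mul_ne_zero hd' (mul_ne_zero he' hQ0)
  refine ⟨MvPolynomial.C e * P', MvPolynomial.C d * Q', ?_, ?_⟩
  · rintro h
    apply hne
    rw [h, map_zero]
  · have hinj := IsFractionRing.injective (MvPolynomial ι ℚ) (FractionRing (MvPolynomial ι ℚ))
    have h1 : ∀ q : MvPolynomial ι ℚ, q ≠ 0 →
        algebraMap (MvPolynomial ι ℚ) (FractionRing (MvPolynomial ι ℚ)) q ≠ 0 := by
      intro q hq h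
      exact hq (hinj (by rw [h, map_zero]))
    simp only [i0, RingHom.comp_apply]
    rw [map_mul (MvPolynomial.map (Int.castRingHom ℚ)), map_mul (MvPolynomial.map (Int.castRingHom ℚ)),
      ← hP', ← hQ', hC, hC]
    simp only [map_mul]
    have h2 := h1 _ hd'
    have h3 := h1 _ he'
    have h4 := h1 _ hQ0
    field_simp

/-- the structure of finitely generated fields -/
theorem stepA (L : Type) [Field L] [CharZero L] (T : Finset L) :
    ∃ (ι : Type) (_ : Finite ι) (x : ι → L), AlgebraicIndependent ℚ x ∧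
      ∃ (y : L) (f : (MvPolynomial ι ℤ)[X]) (D : MvPolynomial ι ℤ), f.Monic ∧ D ≠ 0 ∧
        (∀ g : (MvPolynomial ι ℤ)[X],
          eval₂ (MvPolynomial.eval₂Hom (Int.castRingHom L) x) y g = 0 ↔ f ∣ g) ∧
        (AdjoinRoot.mk f (derivative f) ∣ AdjoinRoot.of f D) ∧
        (∀ t ∈ T, ∃ P : (MvPolynomial ι ℤ)[X], t * MvPolynomial.eval₂Hom (Int.castRingHom L) x D =
          eval₂ (MvPolynomial.eval₂Hom (Int.castRingHom L) x) y P) := by
  classical
  obtain ⟨u, -, hu⟩ := exists_maximal_algebraicIndependent (R := ℚ) (A := L) ∅ (T : Set L)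
    (Set.empty_subset _) ((algebraicIndependent_empty_iff ..).mpr
      (FaithfulSMul.algebraMap_injective ℚ L))
  have hind : AlgebraicIndepOn ℚ id u := hu.prop.1
  have huT : u ⊆ (T : Set L) := hu.prop.2
  have hfin : Finite u := (T.finite_toSet.subset huT).to_subtype
  have halg : ∀ t ∈ T, IsAlgebraic (Algebra.adjoin ℚ u) t := by
    intro t ht
    by_contra hcon
    have h1 := AlgebraicIndepOn.insert (R := ℚ) (x := id) (i := t) hind (by
      rw [Set.image_id]
      exact hcon)
    have h2 := hu.le_of_ge (y := insert t u) ⟨h1, Set.insert_subset ht huT⟩ (Set.subset_insert _ _)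
    apply hcon
    exact isAlgebraic_algebraMap (⟨t, Algebra.subset_adjoin (h2 (Set.mem_insert _ _))⟩ :
      Algebra.adjoin ℚ u)
  let x : u → L := Subtype.val
  have hx : AlgebraicIndependent ℚ x := hind
  let R0 := MvPolynomial u ℤ
  let R1 := MvPolynomial u ℚ
  let Q := FractionRing R1
  let g1 : R1 →+* L := (MvPolynomial.aeval (R := ℚ) x).toRingHom
  have hg1 : Function.Injective g1 := hx
  let φ : Q →+* L := IsFractionRing.lift hg1
  have hφ : ∀ r : R1, φ (algebraMap R1 Q r) = g1 r := fun r => IsFractionRing.lift_algebraMap hg1 r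
  have hgX : ∀ i, g1 (MvPolynomial.X i) = x i := fun i => MvPolynomial.aeval_X x i
  have hgC : ∀ r : ℚ, g1 (MvPolynomial.C r) = (r : L) := fun r => MvPolynomial.aeval_C x r
  let e : R0 →+* L := MvPolynomial.eval₂Hom (Int.castRingHom L) x
  have he : e = φ.comp (i0 u) := by
    apply MvPolynomial.ringHom_ext
    · intro r
      simp only [e, i0, RingHom.comp_apply, MvPolynomial.coe_eval₂Hom, MvPolynomial.eval₂_C,
        MvPolynomial.map_C]
      rw [hφ, hgC]
      simp
    · intro i
      simp only [e, i0, RingHom.comp_apply, MvPolynomial.coe_eval₂Hom, MvPolynomial.eval₂_X,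
        MvPolynomial.map_X]
      rw [hφ, hgX]
  let a1 : Algebra Q L := φ.toAlgebra
  let a2 : Algebra R0 Q := (i0 u).toAlgebra
  let a3 : Algebra R0 L := (φ.comp (i0 u)).toAlgebra
  have t1 : IsScalarTower R0 Q L := IsScalarTower.of_algebraMap_eq' rfl
  have f1 : FaithfulSMul R0 Q := (faithfulSMul_iff_algebraMap_injective R0 Q).2 (i0_injective u)
  have hfrac : IsFractionRing R0 Q := IsFractionRing.of_field R0 Q (fun z => by
    obtain ⟨x, y, -, hxy⟩ := i0_surj u z
    exact ⟨x, y, hxy⟩)
  have f2 : FaithfulSMul R0 L := (faithfulSMul_iff_algebraMap_injective R0 L).2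
    (φ.injective.comp (i0_injective u))
  have hmem : ∀ a ∈ Algebra.adjoin ℚ u, a ∈ Set.range φ := by
    intro a ha
    induction ha using Algebra.adjoin_induction with
    | mem z hz => exact ⟨algebraMap R1 Q (MvPolynomial.X ⟨z, hz⟩), by rw [hφ, hgX]⟩
    | algebraMap r => exact ⟨algebraMap R1 Q (MvPolynomial.C r), by rw [hφ, hgC]; rfl⟩
    | add z w _ _ hz hw =>
      obtain ⟨z', rfl⟩ := hz
      obtain ⟨w', rfl⟩ := hw
      exact ⟨z' + w', map_add _ _ _⟩
    | mul z w _ _ hz hw =>
      obtain ⟨z', rfl⟩ := hz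
      obtain ⟨w', rfl⟩ := hw
      exact ⟨z' * w', map_mul _ _ _⟩
  have halgQ : ∀ t ∈ T, IsAlgebraic Q t := by
    intro t ht
    obtain ⟨p, hp0, hp⟩ := halg t ht
    obtain ⟨q, hq⟩ := (mem_lifts (f := φ) (p.map (algebraMap (Algebra.adjoin ℚ u) L))).1 (by
      rw [lifts_iff_coeff_lifts]
      intro n
      rw [coeff_map]
      exact hmem _ (p.coeff n).2)
    refine ⟨q, ?_, ?_⟩
    · rintro rfl
      rw [Polynomial.map_zero] at hq
      apply hp0
      apply Polynomial.map_injective (algebraMap (Algebra.adjoin ℚ u) L) Subtype.val_injective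
      rw [← hq, Polynomial.map_zero]
    · have h1 : aeval t q = eval t (q.map φ) := by
        rw [eval_map]
        rfl
      rw [h1, hq, eval_map]
      exact hp
  let L0 : IntermediateField Q L := IntermediateField.adjoin Q (T : Set L)
  have hfd : FiniteDimensional Q L0 := IntermediateField.finiteDimensional_adjoin
    (fun t ht => (halgQ t ht).isIntegral)
  have hcQ : CharZero Q := inferInstance
  let a4 : Algebra R0 L0 := ((algebraMap Q L0).comp (i0 u)).toAlgebra
  have t2 : IsScalarTower R0 Q L0 := IsScalarTower.of_algebraMap_eq' rfl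
  have t3 : IsScalarTower R0 L0 L := IsScalarTower.of_algebraMap_eq' rfl
  obtain ⟨y0, hy0, hy0i⟩ := Pool.Agent.H298R2.Kuyk.exists_prim R0 Q L0
  let y : L := (y0 : L)
  have hyi : IsIntegral R0 y := hy0i.map (IsScalarTower.toAlgHom R0 L0 L)
  let f : R0[X] := minpoly R0 y
  have hev : ∀ g : R0[X], eval₂ e y g = aeval y g := by
    intro g
    rw [he]
    rfl
  have hker : ∀ g : R0[X], eval₂ e y g = 0 ↔ f ∣ g := by
    intro g
    rw [hev]
    constructor
    · intro h
      exact minpoly.isIntegrallyClosed_dvd hyi h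
    · rintro ⟨w, rfl⟩
      rw [map_mul, minpoly.aeval, zero_mul]
  have hmon : f.Monic := minpoly.monic hyi
  have hzero : eval₂ e y f = 0 := (hker f).2 dvd_rfl
  -- the ring `AdjoinRoot f` is a domain
  let ψ : AdjoinRoot f →+* L := AdjoinRoot.lift e y hzero
  have hψ : Function.Injective ψ := by
    rw [injective_iff_map_eq_zero]
    intro a ha
    obtain ⟨g, rfl⟩ := AdjoinRoot.mk_surjective a
    rw [AdjoinRoot.mk_eq_zero]
    apply (hker g).1
    rw [← AdjoinRoot.lift_mk (h := hzero)]
    exact ha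
  have hdom : IsDomain (AdjoinRoot f) := hψ.isDomain ψ
  -- the discriminant
  have hder0 : AdjoinRoot.mk f (derivative f) ≠ 0 := by
    rw [Ne, AdjoinRoot.mk_eq_zero]
    have hdeg : 0 < f.natDegree := minpoly.natDegree_pos hyi
    apply hmon.not_dvd_of_natDegree_lt
    · intro h
      have h1 := Polynomial.derivative_eq_zero.1 h
      omega
    · exact natDegree_derivative_lt hdeg.ne'
  have hint : Algebra.IsIntegral R0 (AdjoinRoot f) := by
    have := hmon.finite_adjoinRoot
    infer_instance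
  obtain ⟨D1, hD1, hdvd⟩ := (hint.isIntegral
    (AdjoinRoot.mk f (derivative f))).isAlgebraic.exists_nonzero_dvd
    (mem_nonZeroDivisors_of_ne_zero hder0)
  -- the elements of `T`
  have hT : ∀ t ∈ T, ∃ b : R0, b ≠ 0 ∧ ∃ P : R0[X], t * e b = eval₂ e y P := by
    intro t ht
    have htL : t ∈ L0 := IntermediateField.subset_adjoin Q (T : Set L) ht
    have h1 : (⟨t, htL⟩ : L0) ∈ (IntermediateField.adjoin Q {y0}).toSubalgebra := by
      rw [hy0]
      trivial
    rw [IntermediateField.adjoin_simple_toSubalgebra_of_isAlgebraic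
      (Algebra.IsAlgebraic.isAlgebraic y0), Algebra.adjoin_singleton_eq_range_aeval] at h1
    obtain ⟨q, hq⟩ := h1
    obtain ⟨b, hbm, hb⟩ := IsLocalization.integerNormalization_spec (nonZeroDivisors R0) q
    refine ⟨b, nonZeroDivisors.ne_zero hbm, IsLocalization.integerNormalization (nonZeroDivisors R0) q, ?_⟩
    have h2 : aeval y q = t := by
      have h3 := aeval_algebraMap_apply L y0 q
      have h4 : aeval y0 q = (⟨t, htL⟩ : L0) := hq
      rw [h4] at h3
      exact h3
    have hsm : (b • q : Q[X]) = C (algebraMap R0 Q b) * q := by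
      ext n
      rw [coeff_smul, coeff_C_mul, Algebra.smul_def]
    rw [hev, ← aeval_map_algebraMap Q, hb, hsm, map_mul, aeval_C, h2, he, mul_comm]
    rfl
  choose! b hb0 P hP using hT
  refine ⟨u, hfin, x, hx, y, f, D1 * ∏ t ∈ T, b t, hmon, ?_, hker, ?_, ?_⟩
  · exact mul_ne_zero hD1 (Finset.prod_ne_zero_iff.2 hb0)
  · rw [map_mul]
    exact dvd_mul_of_dvd_left hdvd _
  · intro t ht
    obtain ⟨w, hw⟩ : b t ∣ D1 * ∏ t ∈ T, b t :=
      dvd_mul_of_dvd_right (Finset.dvd_prod_of_mem b ht) _
    refine ⟨P t * C w, ?_⟩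
    rw [hw, map_mul, ← mul_assoc, eval₂_mul, eval₂_C]
    congr 1
    exact hP t ht

end

end Pool.Agent.Helper27.LG
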