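import Mathlib

/-!
Finite groups of linear automorphisms: products, wreath products, semidirect products.
-/

set_option autoImplicit false
set_option linter.unusedSectionVars false

namespace Pool.Agent.Helper27.LG

/-- `V` has a faithful action of a finite group of order `N` -/
def HasFin (R V : Type) [CommRing R] [AddCommGroup V] [Module R V] (N : ℕ) : Prop :=
  ∃ (Γ : Type) (_ : Group Γ) (_ : Finite Γ) (F : Γ →* (V ≃ₗ[R] V)),
    Function.Injective F ∧ Nat.card Γ = N

section
variable {R V W : Type} [CommRing R] [AddCommGroup V] [Module R V] [AddCommGroup W] [Module R W]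

theorem HasFin.one : HasFin R V 1 :=
  ⟨Unit, inferInstance, inferInstance, 1, fun _ _ _ => rfl, by simp⟩

theorem HasFin.congr {N : ℕ} (e : V ≃ₗ[R] W) (h : HasFin R V N) : HasFin R W N := by
  obtain ⟨Γ, i1, i2, F, hF, hN⟩ := h
  refine ⟨Γ, i1, i2,
    { toFun := fun g => e.symm.trans ((F g).trans e)
      map_one' := by
        ext w
        simp
      map_mul' := by
        intro g g'
        ext w
        simp }, ?_, hN⟩
  intro g g' hgg'
  apply hF
  ext v
  have h1 := LinearEquiv.congr_fun hgg' (e v)
  simpa using h1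

theorem HasFin.prod {N N' : ℕ} (h : HasFin R V N) (h' : HasFin R W N') :
    HasFin R (V × W) (N * N') := by
  obtain ⟨Γ, i1, i2, F, hF, hN⟩ := h
  obtain ⟨Γ', i1', i2', F', hF', hN'⟩ := h'
  refine ⟨Γ × Γ', inferInstance, inferInstance,
    { toFun := fun g => (F g.1).prodCongr (F' g.2)
      map_one' := by
        ext w <;> simp
      map_mul' := by
        intro g g'
        ext w <;> simp }, ?_, by rw [Nat.card_prod, hN, hN']⟩
  intro g g' hgg'
  apply Prod.ext
  · apply hF
    ext v
    have h1 := LinearEquiv.congr_fun hgg' (v, 0)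
    have h2 := congrArg Prod.fst h1
    simpa using h2
  · apply hF'
    ext v
    have h1 := LinearEquiv.congr_fun hgg' (0, v)
    have h2 := congrArg Prod.snd h1
    simpa using h2

/-- the permutation action -/
def permAut (Γ : Type) [Group Γ] (q : ℕ) : Equiv.Perm (Fin q) →* MulAut (Fin q → Γ) where
  toFun π :=
    { toFun := fun f i => f (π⁻¹ i)
      invFun := fun f i => f (π i)
      left_inv := fun f => by ext i; simp
      right_inv := fun f => by ext i; simp
      map_mul' := fun f g => rfl }
  map_one' := by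
    ext f i
    simp
  map_mul' := by
    intro π τ
    ext f i
    simp [mul_inv_rev]

theorem HasFin.wr {N : ℕ} [Nontrivial V] (h : HasFin R V N) (q : ℕ) :
    HasFin R (Fin q → V) (N ^ q * q.factorial) := by
  obtain ⟨Γ, i1, i2, F, hF, hN⟩ := h
  let f1 : (Fin q → Γ) →* ((Fin q → V) ≃ₗ[R] (Fin q → V)) :=
    { toFun := fun g => LinearEquiv.piCongrRight fun i => F (g i)
      map_one' := by
        ext v i
        simp
      map_mul' := by
        intro g g'
        ext v i
        simp }
  let f2 : Equiv.Perm (Fin q) →* ((Fin q → V) ≃ₗ[R] (Fin q → V)) :=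
    { toFun := fun π => LinearEquiv.funCongrLeft R V π⁻¹
      map_one' := by
        ext v i
        simp [LinearEquiv.funCongrLeft, LinearMap.funLeft]
      map_mul' := by
        intro g g'
        ext v i
        simp [LinearEquiv.funCongrLeft, LinearMap.funLeft] }
  have h1 : ∀ g v i, f1 g v i = F (g i) (v i) := fun g v i => rfl
  have h2 : ∀ π v i, f2 π v i = v (π⁻¹ i) := fun g v i => rfl
  have h2' : ∀ π v i, (f2 π)⁻¹ v i = v (π i) := by
    intro π v i
    rw [← map_inv, h2, inv_inv]
  let φ := permAut Γ q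
  have h3 : ∀ π (f : Fin q → Γ) i, φ π f i = f (π⁻¹ i) := fun _ _ _ => rfl
  let f3 : (Fin q → Γ) ⋊[φ] Equiv.Perm (Fin q) →* ((Fin q → V) ≃ₗ[R] (Fin q → V)) :=
    SemidirectProduct.lift f1 f2 (by
      intro π
      ext f v i
      simp only [MonoidHom.comp_apply, MulEquiv.coe_toMonoidHom, MulAut.conj_apply,
        LinearEquiv.mul_apply]
      rw [h1, h3, h2, h1, h2']
      simp)
  refine ⟨(Fin q → Γ) ⋊[φ] Equiv.Perm (Fin q), inferInstance,
    Finite.of_equiv _ SemidirectProduct.equivProd.symm, f3, ?_, ?_⟩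
  · rw [injective_iff_map_eq_one]
    intro x hx
    have h4 : ∀ (v : Fin q → V) (i : Fin q), F (x.left i) (v (x.right⁻¹ i)) = v i := by
      intro v i
      have h5 : f3 x v i = v i := by rw [hx]; rfl
      exact h5
    have hr : x.right = 1 := by
      rw [← inv_eq_one]
      ext i
      by_contra hne
      obtain ⟨w, hw⟩ := exists_ne (0 : V)
      have h5 := h4 (Pi.single i w) i
      rw [Pi.single_eq_same, Pi.single_eq_of_ne (by
        intro h6
        exact hne (by rw [h6]; rfl)), map_zero] at h5
      exact hw h5.symm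
    have hl : x.left = 1 := by
      ext i
      apply hF
      ext v
      have h5 := h4 (fun _ => v) i
      rw [h5]
      simp
    exact SemidirectProduct.ext hl hr
  · rw [SemidirectProduct.card, Nat.card_fun, Nat.card_perm, hN, Nat.card_fin]

theorem HasFin.exists_subgroup {n N : ℕ} (h : HasFin R (Fin n → R) N) :
    ∃ H : Subgroup (Matrix.GeneralLinearGroup (Fin n) R), Finite H ∧ Nat.card H = N := by
  obtain ⟨Γ, i1, i2, F, hF, hN⟩ := h
  let e : ((Fin n → R) ≃ₗ[R] (Fin n → R)) ≃* Matrix.GeneralLinearGroup (Fin n) R :=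
    (LinearMap.GeneralLinearGroup.generalLinearEquiv R (Fin n → R)).symm.trans
      Matrix.GeneralLinearGroup.toLin.symm
  let F' : Γ →* Matrix.GeneralLinearGroup (Fin n) R := e.toMonoidHom.comp F
  have hF' : Function.Injective F' := e.injective.comp hF
  let E : Γ ≃* F'.range := MonoidHom.ofInjective hF'
  exact ⟨F'.range, Finite.of_equiv _ E.toEquiv, by rw [← Nat.card_congr E.toEquiv, hN]⟩

/-- units of an algebra -/
theorem hasFin_unit {S : Type} [CommRing S] [Algebra R S] (u : Sˣ) (hu : IsOfFinOrder u) :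
    HasFin R S (orderOf u) := by
  have hfin : Finite (Subgroup.zpowers u) := by
    rw [← SetLike.coe_sort_coe]
    exact (finite_zpowers.2 hu).to_subtype
  refine ⟨Subgroup.zpowers u, inferInstance, hfin,
    (DistribMulAction.toModuleAut R S (S := Sˣ)).comp (Subgroup.zpowers u).subtype, ?_, ?_⟩
  · intro x y hxy
    have h1 := LinearEquiv.congr_fun hxy 1
    apply Subtype.ext
    apply Units.ext
    have h2 : ((x : Sˣ) : S) * 1 = ((y : Sˣ) : S) * 1 := h1
    simpa using h2
  · exact Nat.card_zpowers u

/-- `-1` -/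
theorem hasFin_neg (v : V) (hv : v ≠ -v) : HasFin R V 2 := by
  let u : V ≃ₗ[R] V := LinearEquiv.neg R
  have hu2 : u ^ 2 = 1 := by
    rw [pow_two]
    ext v
    simp [u]
  have hu1 : u ≠ 1 := by
    intro h
    apply hv
    have h1 := LinearEquiv.congr_fun h v
    have h2 : -v = v := h1
    exact h2.symm
  have hord : orderOf u = 2 := orderOf_eq_prime hu2 hu1
  have hfin : Finite (Subgroup.zpowers u) := by
    rw [← SetLike.coe_sort_coe]
    exact (finite_zpowers.2 (by
      rw [← orderOf_pos_iff, hord]
      norm_num)).to_subtype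
  exact ⟨Subgroup.zpowers u, inferInstance, hfin, (Subgroup.zpowers u).subtype,
    Subtype.val_injective, by rw [Nat.card_zpowers, hord]⟩

/-- roots of unity and an involution -/
theorem hasFin_semi {S : Type} [CommRing S] [IsDomain S] [Algebra R S] {k : ℕ} [NeZero k]
    {ζ : S} (hζ : IsPrimitiveRoot ζ k) (τ : S ≃ₐ[R] S) (hτ : τ * τ = 1) (hτ1 : τ ≠ 1) :
    HasFin R S (k * 2) := by
  let φ : Subgroup.zpowers τ →* MulAut (rootsOfUnity k S) :=
    { toFun := fun σ => ((σ.1 : S ≃ₐ[R] S) : S ≃* S).restrictRootsOfUnity k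
      map_one' := by
        ext x
        rfl
      map_mul' := by
        intro σ σ'
        ext x
        rfl }
  let f1 : rootsOfUnity k S →* (S ≃ₗ[R] S) :=
    (DistribMulAction.toModuleAut R S (S := Sˣ)).comp (rootsOfUnity k S).subtype
  let f2 : Subgroup.zpowers τ →* (S ≃ₗ[R] S) :=
    { toFun := fun σ => σ.1.toLinearEquiv
      map_one' := by
        ext x
        simp
      map_mul' := by
        intro σ σ'
        ext x
        simp }
  have h1 : ∀ (v : rootsOfUnity k S) (x : S), f1 v x = ((v : Sˣ) : S) * x := fun _ _ => rfl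
  have h2 : ∀ (σ : Subgroup.zpowers τ) (x : S), f2 σ x = σ.1 x := fun _ _ => rfl
  have h2' : ∀ (σ : Subgroup.zpowers τ) (x : S), (f2 σ)⁻¹ x = (σ.1)⁻¹ x := by
    intro σ x
    rw [← map_inv, h2]
    rfl
  have h3 : ∀ (σ : Subgroup.zpowers τ) (v : rootsOfUnity k S),
      (((φ σ v : rootsOfUnity k S) : Sˣ) : S) = σ.1 ((v : Sˣ) : S) := fun _ _ => rfl
  let f3 : rootsOfUnity k S ⋊[φ] Subgroup.zpowers τ →* (S ≃ₗ[R] S) :=
    SemidirectProduct.lift f1 f2 (by
      intro σ
      ext v x
      simp only [MonoidHom.comp_apply, MulEquiv.coe_toMonoidHom, MulAut.conj_apply,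
        LinearEquiv.mul_apply]
      rw [h1, h3, h2, h1, h2', map_mul]
      congr 1
      exact (AlgEquiv.apply_symm_apply σ.1 x).symm)
  have hord : orderOf τ = 2 := orderOf_eq_prime (by rw [pow_two, hτ]) hτ1
  have hfin : Finite (Subgroup.zpowers τ) := by
    rw [← SetLike.coe_sort_coe]
    exact (finite_zpowers.2 (by
      rw [← orderOf_pos_iff, hord]
      norm_num)).to_subtype
  refine ⟨rootsOfUnity k S ⋊[φ] Subgroup.zpowers τ, inferInstance,
    Finite.of_equiv _ SemidirectProduct.equivProd.symm, f3, ?_, ?_⟩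
  · rw [injective_iff_map_eq_one]
    intro x hx
    have h4 : ∀ y : S, ((x.left : Sˣ) : S) * x.right.1 y = y := by
      intro y
      have h5 : f3 x y = y := by rw [hx]; rfl
      exact h5
    have hl : ((x.left : Sˣ) : S) = 1 := by
      have h5 := h4 1
      rwa [map_one, mul_one] at h5
    apply SemidirectProduct.ext
    · apply Subtype.ext
      apply Units.ext
      exact hl
    · apply Subtype.ext
      ext y
      have h5 := h4 y
      rw [hl, one_mul] at h5
      exact h5
  · rw [SemidirectProduct.card, hζ.card_rootsOfUnity, Nat.card_zpowers, hord]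

end

end Pool.Agent.Helper27.LG
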