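import Pool.Agent.Helper93.IW.Mink

/-!
Valuations of `p ^ i - 1`.
-/

set_option autoImplicit false
set_option linter.unusedSectionVars false

open Pool.Agent.Helper93.IW (dvd_iff_zmod val_GL)

namespace Pool.Agent.Helper27.LG

/-- odd `l` -/
theorem val_t (l p t a : ℕ) (hl : l.Prime) (hl2 : l ≠ 2) (hp : p.Prime) (hlp : p ≠ l)
    (ht : 0 < t) (h1 : ∀ i, l ∣ p ^ i - 1 ↔ t ∣ i) (ha : padicValNat l (p ^ t - 1) = a) (i : ℕ)
    (hi : 0 < i) :
    padicValNat l (p ^ i - 1) = if t ∣ i then a + padicValNat l (i / t) else 0 := by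
  have : Fact l.Prime := ⟨hl⟩
  have hodd : Odd l := hl.odd_of_ne_two hl2
  have hpt : 1 < p ^ t := Nat.one_lt_pow ht.ne' hp.one_lt
  split_ifs with h
  · obtain ⟨k, rfl⟩ := h
    have hk : 0 < k := Nat.pos_of_mul_pos_right hi |> fun h => by
      rcases Nat.eq_zero_or_pos k with h0 | h0
      · rw [h0, mul_zero] at hi
        exact absurd hi (lt_irrefl _)
      · exact h0
    rw [Nat.mul_div_cancel_left _ ht, pow_mul]
    have h2 := padicValNat.pow_sub_pow (p := l) hodd (x := p ^ t) (y := 1) hpt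
      ((h1 t).2 dvd_rfl) (fun h3 => hlp
        ((Nat.prime_dvd_prime_iff_eq hl hp).1 (hl.dvd_of_dvd_pow h3)).symm) (n := k) hk.ne'
    rw [one_pow, ha] at h2
    exact h2
  · apply padicValNat.eq_zero_of_not_dvd
    rw [h1]
    exact h

theorem sum_t (l t a : ℕ) (hl : l.Prime) (ht : 0 < t) (n : ℕ) :
    ∑ i ∈ Finset.range n, (if t ∣ i + 1 then a + padicValNat l ((i + 1) / t) else 0) =
      a * (n / t) + padicValNat l (n / t).factorial := by
  have : Fact l.Prime := ⟨hl⟩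
  induction n with
  | zero => simp
  | succ n ih =>
    rw [Finset.sum_range_succ, ih, Nat.succ_div]
    split_ifs with h
    · rw [Nat.factorial_succ, padicValNat.mul (Nat.succ_ne_zero _) (Nat.factorial_ne_zero _)]
      ring
    · rfl

/-- `l = 2`, `4 ∣ p - 1` -/
theorem val_2a (p a : ℕ) (hp : p.Prime) (h4 : 4 ∣ p - 1) (ha : padicValNat 2 (p - 1) = a) (i : ℕ)
    (hi : 0 < i) : padicValNat 2 (p ^ i - 1) = a + padicValNat 2 i := by
  have h1p : 1 < p := hp.one_lt
  have h2 : ¬ 2 ∣ p := by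
    intro h
    have h3 : p % 2 = 0 := Nat.mod_eq_zero_of_dvd h
    obtain ⟨k, hk⟩ := h4
    omega
  have h4' : (4 : ℤ) ∣ (p : ℤ) - 1 := by
    obtain ⟨k, hk⟩ := h4
    exact ⟨k, by omega⟩
  have h2' : ¬ (2 : ℤ) ∣ (p : ℤ) := by
    intro h
    exact h2 (by exact_mod_cast h)
  have h5 := Int.two_pow_sub_pow' i h4' h2'
  rw [one_pow] at h5
  have h6 : ((p : ℤ) ^ i - 1) = ((p ^ i - 1 : ℕ) : ℤ) := by
    rw [Nat.cast_sub (Nat.one_le_pow _ _ hp.pos)]
    push_cast
    rfl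
  have h7 : ((p : ℤ) - 1) = ((p - 1 : ℕ) : ℤ) := by
    rw [Nat.cast_sub hp.one_le]
    push_cast
    rfl
  rw [h6, h7] at h5
  have h8 : ∀ x : ℕ, x ≠ 0 → emultiplicity (2 : ℤ) (x : ℤ) = (padicValNat 2 x : ℕ∞) := by
    intro x hx
    have h9 := Int.natCast_emultiplicity 2 x
    have h10 : ((2 : ℕ) : ℤ) = 2 := rfl
    rw [h10] at h9
    rw [h9, padicValNat_eq_emultiplicity hx]
  have hne : p ^ i - 1 ≠ 0 := by
    have : 1 < p ^ i := Nat.one_lt_pow hi.ne' hp.one_lt
    omega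
  rw [h8 _ hne, h8 _ (by omega), h8 _ hi.ne', ha] at h5
  exact_mod_cast h5

/-- `l = 2`, `4 ∣ p + 1` -/
theorem val_2b (p b : ℕ) (hp : p.Prime) (h4 : p % 4 = 3) (hb : padicValNat 2 (p + 1) = b) (i : ℕ)
    (hi : 0 < i) : padicValNat 2 (p ^ i - 1) = if 2 ∣ i then b + padicValNat 2 i else 1 := by
  have h2p : ¬ 2 ∣ p := by omega
  have hminus : padicValNat 2 (p - 1) = 1 := by
    have h1 : 2 ^ 1 ∣ p - 1 := by norm_num; omega
    have h2 : ¬ 2 ^ 2 ∣ p - 1 := by norm_num; omega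
    have := hp.one_lt
    rw [padicValNat_dvd_iff_le (by omega)] at h1 h2
    omega
  split_ifs with h
  · have h1 := padicValNat.pow_two_sub_one hp.one_lt h2p hi.ne' (even_iff_two_dvd.2 h)
    rw [hb, hminus] at h1
    omega
  · have h3 : p ^ i % 4 = 3 := by
      obtain ⟨j, rfl⟩ : ∃ j, i = 2 * j + 1 := ⟨i / 2, by omega⟩
      rw [pow_succ, pow_mul, Nat.mul_mod, Nat.pow_mod, Nat.pow_mod p, h4]
      norm_num
    have h0 : p ^ i - 1 ≠ 0 := by omega
    have h1 : 2 ^ 1 ∣ p ^ i - 1 := by norm_num; omega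
    have h2 : ¬ 2 ^ 2 ∣ p ^ i - 1 := by norm_num; omega
    rw [padicValNat_dvd_iff_le h0] at h1 h2
    omega

theorem sum_2b (b : ℕ) (n : ℕ) :
    ∑ i ∈ Finset.range n, (if 2 ∣ i + 1 then b + padicValNat 2 (i + 1) else 1) =
      (b + 2) * (n / 2) + padicValNat 2 (n / 2).factorial + n % 2 := by
  induction n with
  | zero => simp
  | succ n ih =>
    rw [Finset.sum_range_succ, ih, Nat.succ_div]
    split_ifs with h
    · obtain ⟨k, hk⟩ := h
      have h1 : n / 2 = k - 1 := by omega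
      have h2 : n / 2 + 1 = k := by omega
      have h3 : n % 2 = 1 := by omega
      have h4 : (n + 1) % 2 = 0 := by omega
      rw [Nat.factorial_succ, padicValNat.mul (Nat.succ_ne_zero _) (Nat.factorial_ne_zero _), h2,
        hk, padicValNat.mul (by norm_num) (by omega), padicValNat.self (by norm_num)]
      rw [← hk, h4, h3, ← h2]
      ring
    · have h3 : n % 2 = 0 := by omega
      have h4 : (n + 1) % 2 = 1 := by omega
      rw [h3, h4]
      ring

end Pool.Agent.Helper27.LG
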