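import Pool.Agent.Helper27.LG.Mod
import Pool.Agent.Helper27.LG.Num

/-!
The choice of the automorphism.
-/

set_option autoImplicit false
set_option linter.unusedSectionVars false
set_option maxHeartbeats 4000000
set_option synthInstance.maxHeartbeats 400000

open Polynomial
open Pool.Agent.Helper93.IW (dvd_iff_zmod val_GL)

namespace Pool.Agent.Helper27.LG

/-- There is an automorphism such that all large primes in the residue class given by it are good
for the prime `l`. -/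
def Good (L : Type) [Field L] (n l k : ℕ) : Prop :=
  ∃ (Ω : Type) (_ : Field Ω) (_ : IsAlgClosed Ω) (_ : Algebra L Ω) (g : Ω ≃ₐ[L] Ω) (m : ℕ)
    (ζ : Ω) (h : ℕ), 0 < m ∧ IsPrimitiveRoot ζ m ∧ g ζ = ζ ^ h ∧
    ∀ p : ℕ, Fact p.Prime → l < p → p ≡ h [MOD m] →
      (Nat.card (Matrix.GeneralLinearGroup (Fin n) (ZMod p))).factorization l ≤ k

section

theorem good_of {L : Type} [Field L] {n l k : ℕ} (M : Type) [Field M] [Algebra L M]
    [Algebra.IsAlgebraic L M] (g : M ≃ₐ[L] M) (m : ℕ) (hm : 0 < m) (ζ : M)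
    (hζ : IsPrimitiveRoot ζ m) (h : ℕ) (hg : g ζ = ζ ^ h)
    (hp : ∀ p : ℕ, Fact p.Prime → l < p → p ≡ h [MOD m] →
      (Nat.card (Matrix.GeneralLinearGroup (Fin n) (ZMod p))).factorization l ≤ k) :
    Good L n l k := by
  have halg : Algebra.IsAlgebraic L (AlgebraicClosure M) := Algebra.IsAlgebraic.trans L M _
  have hcl : IsAlgClosure L (AlgebraicClosure M) := ⟨inferInstance, halg⟩
  have hnormal : Normal L (AlgebraicClosure M) := IsAlgClosure.normal L _
  refine ⟨AlgebraicClosure M, inferInstance, inferInstance, inferInstance,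
    g.liftNormal (AlgebraicClosure M), m, algebraMap M (AlgebraicClosure M) ζ, h, hm,
    hζ.map_of_injective (algebraMap M (AlgebraicClosure M)).injective, ?_, hp⟩
  rw [AlgEquiv.liftNormal_commutes, hg, map_pow]

theorem natDegree_le_card {L M : Type} [Field L] [Field M] [Algebra L M] [FiniteDimensional L M]
    [IsGalois L M] (ω : M) (T : Finset M) (hT : ∀ σ : M ≃ₐ[L] M, σ ω ∈ T) :
    (minpoly L ω).natDegree ≤ T.card := by
  classical
  rw [← card_rootSet_eq_natDegree (K := M) (IsGalois.separable L ω) (IsGalois.splits L ω),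
    ← Set.toFinset_card]
  apply Finset.card_le_card
  intro y hy
  rw [Set.mem_toFinset, mem_rootSet] at hy
  obtain ⟨σ, hσ⟩ := minpoly.exists_algEquiv_of_root' (Algebra.IsAlgebraic.isAlgebraic ω) hy.2
  rw [← hσ]
  exact hT σ

end

section om

variable {L M : Type} [Field L] [Field M] [Algebra L M] {l c : ℕ} {ζ : M}

theorem om_prim (hζ : IsPrimitiveRoot ζ (l ^ c)) (hl : 0 < l) {k : ℕ} (hk : k ≤ c) :
    IsPrimitiveRoot (ζ ^ l ^ (c - k)) (l ^ k) := by
  apply hζ.pow (pow_pos hl c)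
  rw [← pow_add]
  congr 1
  omega

theorem act_pow {h : ℕ} (g : M ≃ₐ[L] M) (hg : g ζ = ζ ^ h) (j : ℕ) :
    g (ζ ^ j) = (ζ ^ j) ^ h := by
  rw [map_pow, hg, ← pow_mul, ← pow_mul, mul_comm]

theorem pow_act {h : ℕ} (g : M ≃ₐ[L] M) (hg : g ζ = ζ ^ h) (i : ℕ) :
    (g ^ i) ζ = ζ ^ (h ^ i) := by
  induction i with
  | zero => simp
  | succ i ih =>
    rw [pow_succ, AlgEquiv.mul_apply, hg, map_pow, ih, ← pow_mul, ← pow_succ]

theorem pow_iff {m : ℕ} (hm : 0 < m) {ω : M} (hω : IsPrimitiveRoot ω m) (x y : ℕ) :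
    ω ^ x = ω ^ y ↔ x ≡ y [MOD m] := by
  have h1 := (hω.isOfFinOrder hm.ne').pow_eq_pow_iff_modEq (n := x) (m := y)
  rw [← hω.eq_orderOf] at h1
  exact h1

theorem fix_iff (hζ : IsPrimitiveRoot ζ (l ^ c)) (hl : 0 < l) {k : ℕ} (hk : k ≤ c) {h : ℕ}
    (g : M ≃ₐ[L] M) (hg : g ζ = ζ ^ h) :
    g (ζ ^ l ^ (c - k)) = ζ ^ l ^ (c - k) ↔ h ≡ 1 [MOD l ^ k] := by
  rw [act_pow g hg, ← pow_iff (pow_pos hl k) (om_prim hζ hl hk), pow_one]

/-- divisibility of `p ^ i - 1` and fixed points -/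
theorem fix_iff' (hζ : IsPrimitiveRoot ζ (l ^ c)) (hl : 0 < l) {k : ℕ} (hk : k ≤ c) {h : ℕ}
    (g : M ≃ₐ[L] M) (hg : g ζ = ζ ^ h) {p : ℕ} (hp : p.Prime) (hmod : p ≡ h [MOD l ^ c]) (i : ℕ) :
    (g ^ i) (ζ ^ l ^ (c - k)) = ζ ^ l ^ (c - k) ↔ l ^ k ∣ p ^ i - 1 := by
  rw [fix_iff hζ hl hk (g ^ i) (pow_act g hg i), ← Nat.modEq_iff_dvd' (Nat.one_le_pow _ _ hp.pos)]
  have h1 : p ^ i ≡ h ^ i [MOD l ^ k] := (hmod.of_dvd (pow_dvd_pow l hk)).pow i
  exact ⟨fun h2 => (h1.trans h2).symm, fun h2 => h1.symm.trans h2.symm⟩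

end om

section odd

variable {R : Type} [CommRing R] [IsDomain R] [IsIntegrallyClosed R] [CharZero R]
  {L : Type} [Field L] [Algebra R L] [IsFractionRing R L]

theorem good_odd (n d l : ℕ) (hd0 : d ≠ 0)
    (hd : ∀ H : Subgroup (Matrix.GeneralLinearGroup (Fin n) R), Finite H → Nat.card H ∣ d)
    (hl : l.Prime) (hl2 : l ≠ 2) : Good L n l (d.factorization l) := by
  classical
  have hlf : Fact l.Prime := ⟨hl⟩
  have hcL : CharZero L := charZero_of_injective_algebraMap (IsFractionRing.injective R L)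
  obtain ⟨c, hc⟩ : ∃ c, c = d.factorization l + 1 := ⟨_, rfl⟩
  have hne1 : NeZero (l ^ c) := ⟨pow_ne_zero _ hl.ne_zero⟩
  have hne2 : NeZero ((l ^ c : ℕ) : L) := ⟨by exact_mod_cast pow_ne_zero _ hl.ne_zero⟩
  obtain ⟨M, iM, aLM, hcyc⟩ : ∃ (M : Type) (_ : Field M) (_ : Algebra L M),
      IsCyclotomicExtension {l ^ c} L M :=
    ⟨CyclotomicField (l ^ c) L, inferInstance, inferInstance, inferInstance⟩
  have hfd : FiniteDimensional L M := IsCyclotomicExtension.finiteDimensional {l ^ c} L M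
  have hgal : IsGalois L M := IsCyclotomicExtension.isGalois {l ^ c} L M
  let aRM : Algebra R M := ((algebraMap L M).comp (algebraMap R L)).toAlgebra
  have tRM : IsScalarTower R L M := IsScalarTower.of_algebraMap_eq' rfl
  obtain ⟨ζ, hζ⟩ : ∃ ζ : M, IsPrimitiveRoot ζ (l ^ c) :=
    ⟨_, IsCyclotomicExtension.zeta_spec (l ^ c) L M⟩
  have hinj := IsPrimitiveRoot.autToPow_injective (K := L) hζ
  have hcy1 := ZMod.isCyclic_units_of_prime_pow l hl hl2 c
  have hcy : IsCyclic (M ≃ₐ[L] M) := isCyclic_of_injective _ hinj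
  obtain ⟨g, hgen⟩ := hcy.exists_generator
  obtain ⟨h, hh⟩ : ∃ h : ℕ, g ζ = ζ ^ h := ⟨_, (IsPrimitiveRoot.autToPow_spec L hζ g).symm⟩
  have hall : ∀ σ : M ≃ₐ[L] M, ∃ i : ℕ, g ^ i = σ := by
    intro σ
    have h1 := hgen σ
    rw [← mem_powers_iff_mem_zpowers] at h1
    exact h1
  refine good_of M g (l ^ c) (pow_pos hl.pos _) ζ hζ h hh ?_
  intro p hpf hlp hmod
  have hp : p.Prime := hpf.out
  have hpl : p ≠ l := hlp.ne'
  rw [val_GL l p n hl hpl]
  -- the order of `p` modulo `l`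
  obtain ⟨t, ht⟩ : ∃ t, t = orderOf (p : ZMod l) := ⟨_, rfl⟩
  have hp0 : (p : ZMod l) ≠ 0 := by
    rw [Ne, ZMod.natCast_eq_zero_iff]
    intro h1
    exact hpl ((Nat.prime_dvd_prime_iff_eq hl hp).1 h1).symm
  have ht0 : 0 < t := by
    rw [ht, orderOf_pos_iff, isOfFinOrder_iff_pow_eq_one]
    exact ⟨l - 1, by have := hl.two_le; omega, ZMod.pow_card_sub_one_eq_one hp0⟩
  have hdvd : ∀ i, l ∣ p ^ i - 1 ↔ t ∣ i := by
    intro i
    rw [dvd_iff_zmod _ _ _ hp.pos, ht, orderOf_dvd_iff_pow_eq_one]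
  -- the degrees
  have hdeg : ∀ k ≤ c, l ^ k ∣ p ^ t - 1 → (minpoly L (ζ ^ l ^ (c - k))).natDegree ≤ t := by
    intro k hk hdv
    have hfix := (fix_iff' hζ hl.pos hk g hh hp hmod t).2 hdv
    have hfixm : ∀ m : ℕ, (g ^ (t * m)) (ζ ^ l ^ (c - k)) = ζ ^ l ^ (c - k) := by
      intro m
      induction m with
      | zero => simp
      | succ m ih => rw [mul_add, mul_one, pow_add, AlgEquiv.mul_apply, hfix, ih]
    have h1 := natDegree_le_card (L := L) (ζ ^ l ^ (c - k))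
      ((Finset.range t).image fun i => (g ^ i) (ζ ^ l ^ (c - k))) (by
        intro σ
        obtain ⟨i, rfl⟩ := hall σ
        rw [Finset.mem_image]
        refine ⟨i % t, Finset.mem_range.2 (Nat.mod_lt _ ht0), ?_⟩
        conv_rhs => rw [← Nat.mod_add_div i t, pow_add, AlgEquiv.mul_apply, hfixm])
    exact h1.trans (Finset.card_image_le.trans (by rw [Finset.card_range]))
  have hfacpos : ∀ e, l ^ e ∣ d → e ≤ d.factorization l := fun e he =>
    (hl.pow_dvd_iff_le_factorization hd0).1 he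
  by_cases hA : l ^ c ∣ p ^ t - 1
  · -- then `t` is larger than `n`
    have htn : n < t := by
      by_contra hcon
      push Not at hcon
      have h1 := hdeg c le_rfl hA
      have h2 := dvd_of_root (R := R) (L := L) (n := n) (q := 1) (pow_pos hl.pos c) hd
        (ζ ^ l ^ (c - c)) (om_prim hζ hl.pos le_rfl) (by omega)
      rw [pow_one, Nat.factorial_one, mul_one] at h2
      have h3 := hfacpos c h2
      omega
    have h0 : ∑ i ∈ Finset.range n, padicValNat l (p ^ (i + 1) - 1) = 0 := by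
      apply Finset.sum_eq_zero
      intro i hi
      apply padicValNat.eq_zero_of_not_dvd
      rw [hdvd]
      intro h1
      have := Nat.le_of_dvd (Nat.succ_pos i) h1
      have := Finset.mem_range.1 hi
      omega
    rw [h0]
    exact Nat.zero_le _
  · obtain ⟨a, ha⟩ : ∃ a, a = padicValNat l (p ^ t - 1) := ⟨_, rfl⟩
    have hpt : p ^ t - 1 ≠ 0 := by
      have : 1 < p ^ t := Nat.one_lt_pow ht0.ne' hp.one_lt
      omega
    have hac : a < c := by
      rw [padicValNat_dvd_iff_le hpt] at hA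
      omega
    have hda : l ^ a ∣ p ^ t - 1 := by
      rw [padicValNat_dvd_iff_le hpt, ha]
    have hval := fun i hi => val_t l p t a hl hl2 hp hpl ht0 hdvd ha.symm i hi
    rw [Finset.sum_congr rfl (fun i _ => hval (i + 1) (Nat.succ_pos i)), sum_t l t a hl ht0]
    have h1 := dvd_of_root (R := R) (L := L) (n := n) (q := n / t) (pow_pos hl.pos a) hd
      (ζ ^ l ^ (c - a)) (om_prim hζ hl.pos hac.le)
      ((Nat.mul_le_mul_left _ (hdeg a hac.le hda)).trans (Nat.div_mul_le_self n t))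
    have hne : (l ^ a) ^ (n / t) * (n / t).factorial ≠ 0 :=
      mul_ne_zero (pow_ne_zero _ (pow_ne_zero _ hl.ne_zero)) (Nat.factorial_ne_zero _)
    have h2 := (Nat.factorization_le_iff_dvd hne hd0).2 h1 l
    refine le_trans (le_of_eq ?_) h2
    rw [Nat.factorization_mul (pow_ne_zero _ (pow_ne_zero _ hl.ne_zero))
      (Nat.factorial_ne_zero _), Finsupp.add_apply, ← pow_mul, hl.factorization_pow,
      Finsupp.single_eq_same, Nat.factorization_def _ hl]

end odd

end Pool.Agent.Helper27.LG
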