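import Pool.Agent.Helper27.LG.Sep

/-!
Many homomorphisms from a localised finite extension of a polynomial ring over the integers.
-/

set_option autoImplicit false
set_option linter.unusedSectionVars false

open Polynomial

namespace Pool.Agent.Helper27.LG

section

variable {p : ℕ} [Fact p.Prime] {ι : Type}

/-- evaluation of an integral polynomial at a `p`-adic point -/
noncomputable def ev (β : ι → ℤ_[p]) : MvPolynomial ι ℤ →+* ℤ_[p] :=
  MvPolynomial.eval₂Hom (Int.castRingHom ℤ_[p]) β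

theorem ev_cong {α β : ι → ℤ_[p]} (h : ∀ i, PadicInt.toZMod (β i) = PadicInt.toZMod (α i)) :
    (PadicInt.toZMod (p := p)).comp (ev β) = (PadicInt.toZMod (p := p)).comp (ev α) := by
  apply MvPolynomial.ringHom_ext
  · intro r
    simp [ev]
  · intro i
    simp only [ev, RingHom.comp_apply, MvPolynomial.coe_eval₂Hom, MvPolynomial.eval₂_X]
    exact h i

theorem toZMod_eval₂ {α β : ι → ℤ_[p]} (h : ∀ i, PadicInt.toZMod (β i) = PadicInt.toZMod (α i))
    {y z : ℤ_[p]} (hy : PadicInt.toZMod z = PadicInt.toZMod y) (f : (MvPolynomial ι ℤ)[X]) :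
    PadicInt.toZMod (eval₂ (ev β) z f) = PadicInt.toZMod (eval₂ (ev α) y f) := by
  rw [hom_eval₂, hom_eval₂, ev_cong h, hy]

theorem norm_lt_of_toZMod {x : ℤ_[p]} (h : PadicInt.toZMod x = 0) : ‖x‖ < 1 := by
  have h2 : x ∈ RingHom.ker (PadicInt.toZMod (p := p)) := h
  rw [PadicInt.ker_toZMod, IsLocalRing.mem_maximalIdeal, PadicInt.mem_nonunits] at h2
  exact h2

theorem toZMod_of_norm_lt {x : ℤ_[p]} (h : ‖x‖ < 1) : PadicInt.toZMod x = 0 := by
  have h2 : x ∈ RingHom.ker (PadicInt.toZMod (p := p)) := by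
    rw [PadicInt.ker_toZMod, IsLocalRing.mem_maximalIdeal, PadicInt.mem_nonunits]
    exact h
  exact h2

theorem sep_gen (f : (MvPolynomial ι ℤ)[X]) (D : MvPolynomial ι ℤ)
    (hdom : IsDomain (AdjoinRoot f)) (hmon : f.Monic)
    (hdisc : AdjoinRoot.mk f (derivative f) ∣ AdjoinRoot.of f D)
    (α : ι → ℤ_[p]) (y0 : ℤ_[p]) (h0 : eval₂ (ev α) y0 f = 0) (hD : IsUnit (ev α D)) :
    Sep p (Localization.Away (AdjoinRoot.of f D)) := by
  classical
  have hp : p.Prime := Fact.out
  -- homomorphisms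
  have hlift : ∀ (β : ι → ℤ_[p]) (z : ℤ_[p]) (hz : eval₂ (ev β) z f = 0),
      IsUnit (ev β D) → IsUnit (AdjoinRoot.lift (ev β) z hz (AdjoinRoot.of f D)) := by
    intro β z hz h
    rw [AdjoinRoot.lift_of]
    exact h
  let lf : ∀ (β : ι → ℤ_[p]) (z : ℤ_[p]), eval₂ (ev β) z f = 0 → IsUnit (ev β D) →
      (Localization.Away (AdjoinRoot.of f D) →+* ℤ_[p]) := fun β z hz h =>
    IsLocalization.Away.lift (AdjoinRoot.of f D) (hlift β z hz h)
  have hlf : ∀ β z hz h x, lf β z hz h (algebraMap (AdjoinRoot f) _ x) =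
      AdjoinRoot.lift (ev β) z hz x := fun β z hz h x => IsLocalization.Away.lift_eq _ _ _
  have hunitD : ∀ β : ι → ℤ_[p], (∀ i, PadicInt.toZMod (β i) = PadicInt.toZMod (α i)) →
      IsUnit (ev β D) := by
    intro β hβ
    apply isUnit_of_toZMod
    have h1 := RingHom.congr_fun (ev_cong hβ) D
    rw [RingHom.comp_apply, RingHom.comp_apply] at h1
    rw [h1]
    exact (hD.map (PadicInt.toZMod (p := p))).ne_zero
  have hder : IsUnit (eval₂ (ev α) y0 (derivative f)) := by
    obtain ⟨w, hw⟩ := hdisc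
    have h1 := congrArg (AdjoinRoot.lift (ev α) y0 h0) hw
    rw [AdjoinRoot.lift_of, map_mul, AdjoinRoot.lift_mk] at h1
    rw [h1] at hD
    exact isUnit_of_mul_isUnit_left hD
  refine ⟨lf α y0 h0 hD, ?_⟩
  intro x hx
  obtain ⟨⟨P, s⟩, hPs⟩ := IsLocalization.surj (Submonoid.powers (AdjoinRoot.of f D)) x
  have hP : P ≠ 0 := by
    rintro rfl
    simp only [map_zero] at hPs
    have hu : IsUnit (algebraMap (AdjoinRoot f) (Localization.Away (AdjoinRoot.of f D)) s) :=
      IsLocalization.map_units _ s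
    exact hx ((hu.mul_left_eq_zero).1 hPs)
  -- a nonzero multiple of `P` in the base
  have hint : Algebra.IsIntegral (MvPolynomial ι ℤ) (AdjoinRoot f) := by
    have := hmon.finite_adjoinRoot
    infer_instance
  obtain ⟨u, hu0, w, hw⟩ := (hint.isIntegral P).isAlgebraic.exists_nonzero_dvd
    (mem_nonZeroDivisors_of_ne_zero hP)
  have hmu : MvPolynomial.map (Int.castRingHom ℤ_[p]) u ≠ 0 := by
    intro h
    apply hu0
    apply MvPolynomial.map_injective (Int.castRingHom ℤ_[p]) (RingHom.injective_int _)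
    rw [h, map_zero]
  obtain ⟨β, hβs, hβ⟩ : ∃ β : ι → ℤ_[p], β ∈ Set.pi Set.univ (fun i => Set.range
      (fun y : ℤ_[p] => α i + p * y)) ∧
      MvPolynomial.eval β (MvPolynomial.map (Int.castRingHom ℤ_[p]) u) ≠ 0 := by
    by_contra hcon
    push Not at hcon
    apply hmu
    apply MvPolynomial.funext_set (s := fun i => Set.range (fun y : ℤ_[p] => α i + p * y))
    · intro i
      apply Set.infinite_range_of_injective
      intro y z hyz
      have hp0 : (p : ℤ_[p]) ≠ 0 := by exact_mod_cast hp.ne_zero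
      exact mul_left_cancel₀ hp0 (add_left_cancel hyz)
    · intro z hz
      rw [hcon z hz, map_zero]
  have hβα : ∀ i, PadicInt.toZMod (β i) = PadicInt.toZMod (α i) := by
    intro i
    obtain ⟨y, hy⟩ := hβs i (Set.mem_univ i)
    simp only at hy
    rw [← hy, map_add, map_mul, map_natCast, ZMod.natCast_self, zero_mul, add_zero]
  have hevu : ev β u ≠ 0 := by
    rw [MvPolynomial.eval_map] at hβ
    exact hβ
  -- Hensel
  have haev : ∀ (g : (MvPolynomial ι ℤ)[X]) (z : ℤ_[p]),
      aeval z (g.map (ev β)) = eval₂ (ev β) z g := by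
    intro g z
    rw [coe_aeval_eq_eval, eval_map]
  have hn1 : ‖(aeval y0 (f.map (ev β)) : ℤ_[p])‖ < 1 := by
    apply norm_lt_of_toZMod
    rw [haev, toZMod_eval₂ hβα rfl, h0, map_zero]
  have hn2 : ‖(aeval y0 (derivative (f.map (ev β))) : ℤ_[p])‖ = 1 := by
    rw [derivative_map, haev, ← PadicInt.isUnit_iff]
    apply isUnit_of_toZMod
    rw [toZMod_eval₂ hβα rfl]
    exact (hder.map (PadicInt.toZMod (p := p))).ne_zero
  obtain ⟨z, hz, hzy, -⟩ := hensels_lemma (F := f.map (ev β)) (a := y0)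
    (by rw [hn2, one_pow]; exact hn1)
  rw [hn2] at hzy
  have hz0 : eval₂ (ev β) z f = 0 := by rw [← haev, hz]
  have hzy' : PadicInt.toZMod z = PadicInt.toZMod y0 := by
    have h1 := toZMod_of_norm_lt hzy
    rwa [map_sub, sub_eq_zero] at h1
  refine ⟨lf β z hz0 (hunitD β hβα), ?_, ?_⟩
  · have h1 : (PadicInt.toZMod (p := p)).comp (lf β z hz0 (hunitD β hβα)) =
        (PadicInt.toZMod (p := p)).comp (lf α y0 h0 hD) := by
      apply IsLocalization.ringHom_ext (Submonoid.powers (AdjoinRoot.of f D))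
      apply AdjoinRoot.ringHom_ext
      · apply RingHom.ext
        intro r
        simp only [RingHom.comp_apply, hlf, AdjoinRoot.lift_of]
        exact RingHom.congr_fun (ev_cong hβα) r
      · simp only [RingHom.comp_apply, hlf, AdjoinRoot.lift_root]
        exact hzy'
    intro y
    apply dvd_of_toZMod
    rw [map_sub, sub_eq_zero]
    exact RingHom.congr_fun h1 y
  · intro h
    have h1 := congrArg (lf β z hz0 (hunitD β hβα)) hPs
    rw [map_mul, h, zero_mul, hlf β z hz0 (hunitD β hβα)] at h1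
    apply hevu
    have h2 := congrArg (AdjoinRoot.lift (ev β) z hz0) hw
    have h3 : AdjoinRoot.lift (ev β) z hz0 (algebraMap (MvPolynomial ι ℤ) (AdjoinRoot f) u) =
      ev β u := AdjoinRoot.lift_of _
    rw [h3, map_mul, ← h1, zero_mul] at h2
    exact h2

end

end Pool.Agent.Helper27.LG
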