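import Pool.Agent.Helper27.LG.Spec
import Pool.Agent.Helper27.LG.SepG
import Pool.Agent.Helper27.LG.Cheb

/-!
A Chebotarev theorem for finitely generated domains of characteristic zero.
-/

set_option autoImplicit false
set_option linter.unusedSectionVars false
set_option maxHeartbeats 4000000
set_option synthInstance.maxHeartbeats 400000

open Polynomial

namespace Pool.Agent.Helper27.LG

section

theorem prime_part {ι : Type} [Finite ι] (f : (MvPolynomial ι ℤ)[X]) (hmon : f.Monic)
    (D : MvPolynomial ι ℤ) (hdom : IsDomain (AdjoinRoot f))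
    (hdisc : AdjoinRoot.mk f (derivative f) ∣ AdjoinRoot.of f D)
    (a : ι → ℚ) (ha : evQ a D ≠ 0) (F : Type) [Field F] [NumberField F]
    [IsGalois ℚ F] (σ : Gal(F/ℚ)) (y' ζ' : F) (hσy : σ y' = y') (m : ℕ) (hm : 0 < m)
    (hζ : IsPrimitiveRoot ζ' m) (h : ℕ) (hσζ : σ ζ' = ζ' ^ h)
    (hy : eval₂ ((algebraMap ℚ F).comp (evQ a)) y' f = 0) (B0 : ℕ) :
    ∃ p, B0 < p ∧ ∃ _ : Fact p.Prime, p ≡ h [MOD m] ∧
      Sep p (Localization.Away (AdjoinRoot.of f D)) := by
  classical
  have hfin : Fintype ι := Fintype.ofFinite ι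
  let K : IntermediateField ℚ F := IntermediateField.fixedField (Subgroup.zpowers σ)
  have hyK : y' ∈ K := by
    rw [IntermediateField.mem_fixedField_iff]
    intro τ hτ
    obtain ⟨k, rfl⟩ := Subgroup.mem_zpowers_iff.1 hτ
    have h1 : σ ∈ MulAction.stabilizer (Gal(F/ℚ)) y' := hσy
    exact Subgroup.zpow_mem _ h1 k
  have hfix : ∀ x : K, σ (algebraMap K F x) = algebraMap K F x := by
    intro x
    exact (IntermediateField.mem_fixedField_iff _ _).1 x.2 σ (Subgroup.mem_zpowers σ)
  obtain ⟨p, hp, hpf, hmod, ⟨κ⟩⟩ := exists_prime_galois K F (algebraMap K F) σ hfix m hm ζ' hζ h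
    hσζ (max B0 (max (∏ i, (a i).den) (max (evQ a D).num.natAbs (evQ a D).den)))
  have hpB : B0 < p := by
    have := le_max_left B0 (max (∏ i, (a i).den) (max (evQ a D).num.natAbs (evQ a D).den))
    omega
  have hp1 : ∀ i, ¬ p ∣ (a i).den := by
    intro i hi
    have h1 : p ∣ ∏ i, (a i).den := hi.trans (Finset.dvd_prod_of_mem _ (Finset.mem_univ i))
    have h2 := Nat.le_of_dvd (Finset.prod_pos fun i _ => (a i).den_pos) h1
    have := le_max_right B0 (max (∏ i, (a i).den) (max (evQ a D).num.natAbs (evQ a D).den))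
    have := le_max_left (∏ i, (a i).den) (max (evQ a D).num.natAbs (evQ a D).den)
    omega
  have hp2 : ¬ p ∣ (evQ a D).num.natAbs := by
    intro hi
    have h2 := Nat.le_of_dvd (Int.natAbs_pos.2 (Rat.num_ne_zero.2 ha)) hi
    have := le_max_right B0 (max (∏ i, (a i).den) (max (evQ a D).num.natAbs (evQ a D).den))
    have := le_max_right (∏ i, (a i).den) (max (evQ a D).num.natAbs (evQ a D).den)
    have := le_max_left (evQ a D).num.natAbs (evQ a D).den
    omega
  have hp3 : ¬ p ∣ (evQ a D).den := by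
    intro hi
    have h2 := Nat.le_of_dvd (Rat.den_pos _) hi
    have := le_max_right B0 (max (∏ i, (a i).den) (max (evQ a D).num.natAbs (evQ a D).den))
    have := le_max_right (∏ i, (a i).den) (max (evQ a D).num.natAbs (evQ a D).den)
    have := le_max_right (evQ a D).num.natAbs (evQ a D).den
    omega
  let α : ι → ℤ_[p] := fun i => ⟨(a i : ℚ_[p]), Padic.norm_rat_le_one (hp1 i)⟩
  have hcomp : (PadicInt.Coe.ringHom (p := p)).comp (ev α) = (algebraMap ℚ ℚ_[p]).comp (evQ a) := by
    apply MvPolynomial.ringHom_ext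
    · intro r
      simp [ev, evQ]
    · intro i
      have h1 : ev α (MvPolynomial.X i) = α i := MvPolynomial.eval₂_X _ _ _
      have h2 : evQ a (MvPolynomial.X i) = a i := by
        simp [evQ]
      rw [RingHom.comp_apply, RingHom.comp_apply, h1, h2]
      rfl
  have hevα : ∀ r, ((ev α r : ℤ_[p]) : ℚ_[p]) = ((evQ a r : ℚ) : ℚ_[p]) := fun r =>
    RingHom.congr_fun hcomp r
  -- the root
  let z : ℚ_[p] := κ ⟨y', hyK⟩
  have hz : eval₂ ((PadicInt.Coe.ringHom (p := p)).comp (ev α)) z f = 0 := by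
    have h1 : eval₂ ((algebraMap ℚ K).comp (evQ a)) (⟨y', hyK⟩ : K) f = 0 := by
      apply (algebraMap K F).injective
      rw [hom_eval₂, map_zero, ← RingHom.comp_assoc]
      exact hy
    have h2 := congrArg κ h1
    rw [hom_eval₂, map_zero, ← RingHom.comp_assoc] at h2
    rw [hcomp]
    have h3 : κ.comp (algebraMap ℚ K) = algebraMap ℚ ℚ_[p] := Subsingleton.elim _ _
    rw [h3] at h2
    exact h2
  have hzint : IsIntegral ℤ_[p] z := by
    refine ⟨f.map (ev α), hmon.map _, ?_⟩
    rw [eval₂_map]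
    exact hz
  obtain ⟨y0, hy0⟩ := IsIntegrallyClosed.isIntegral_iff.1 hzint
  have h0 : eval₂ (ev α) y0 f = 0 := by
    have hinj : Function.Injective (PadicInt.Coe.ringHom (p := p)) := Subtype.val_injective
    apply hinj
    rw [hom_eval₂, map_zero]
    have h1 : (PadicInt.Coe.ringHom (p := p)) y0 = z := hy0
    rw [h1]
    exact hz
  have hDu : IsUnit (ev α D) := by
    rw [PadicInt.isUnit_iff]
    apply le_antisymm (PadicInt.norm_le_one _)
    have h1 : ‖(((evQ a D)⁻¹ : ℚ) : ℚ_[p])‖ ≤ 1 := by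
      apply Padic.norm_rat_le_one
      rw [Rat.den_inv]
      rw [if_neg (Rat.num_ne_zero.2 ha)]
      exact hp2
    have h2 : ‖(ev α D : ℤ_[p])‖ = ‖((evQ a D : ℚ) : ℚ_[p])‖ := by
      rw [← hevα]
      rfl
    rw [h2]
    rw [Rat.cast_inv, norm_inv] at h1
    have h3 : 0 < ‖((evQ a D : ℚ) : ℚ_[p])‖ := by
      rw [norm_pos_iff]
      exact_mod_cast ha
    by_contra hcon
    rw [not_le] at hcon
    have h4 := (one_lt_inv₀ h3).2 hcon
    linarith
  exact ⟨p, hpB, hpf, hmod, sep_gen f D hdom hmon hdisc α y0 h0 hDu⟩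

/-- **Chebotarev for finitely generated domains.** -/
theorem exists_ring (L : Type) [Field L] [CharZero L] (T : Finset L) :
    ∃ (B : Type) (_ : CommRing B) (φ : B →+* L), Function.Injective φ ∧
      (∀ t ∈ T, t ∈ Set.range φ) ∧
      ∀ (Ω : Type) [Field Ω] [IsAlgClosed Ω] [Algebra L Ω] (g : Ω ≃ₐ[L] Ω) (m : ℕ), 0 < m →
        ∀ (ζ : Ω), IsPrimitiveRoot ζ m → ∀ h : ℕ, g ζ = ζ ^ h → ∀ B0 : ℕ,
          ∃ p, B0 < p ∧ ∃ _ : Fact p.Prime, p ≡ h [MOD m] ∧ Sep p B := by
  classical
  obtain ⟨ι, hι, x, hx, y, f, D, hmon, hD, hker, hdisc, hT⟩ := stepA L T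
  let e : MvPolynomial ι ℤ →+* L := MvPolynomial.eval₂Hom (Int.castRingHom L) x
  have hzero : eval₂ e y f = 0 := (hker f).2 dvd_rfl
  let ψ : AdjoinRoot f →+* L := AdjoinRoot.lift e y hzero
  have hψ : Function.Injective ψ := by
    rw [injective_iff_map_eq_zero]
    intro a ha
    obtain ⟨g, rfl⟩ := AdjoinRoot.mk_surjective a
    rw [AdjoinRoot.mk_eq_zero]
    apply (hker g).1
    rw [← AdjoinRoot.lift_mk (h := hzero)]
    exact ha
  have hdom : IsDomain (AdjoinRoot f) := hψ.isDomain ψ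
  let g1 : MvPolynomial ι ℚ →+* L := (MvPolynomial.aeval (R := ℚ) x).toRingHom
  have hg1 : Function.Injective g1 := hx
  have he1 : e = g1.comp (MvPolynomial.map (Int.castRingHom ℚ)) := by
    apply MvPolynomial.ringHom_ext
    · intro r
      have h1 : e (MvPolynomial.C r) = (r : L) := MvPolynomial.eval₂_C _ _ _
      have h2 : g1 (MvPolynomial.C (r : ℚ)) = (algebraMap ℚ L) (r : ℚ) := MvPolynomial.aeval_C _ _
      rw [h1, RingHom.comp_apply, MvPolynomial.map_C, eq_intCast, h2]
      simp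
    · intro i
      have h1 : e (MvPolynomial.X i) = x i := MvPolynomial.eval₂_X _ _ _
      have h2 : g1 (MvPolynomial.X i) = x i := MvPolynomial.aeval_X _ _
      rw [h1, RingHom.comp_apply, MvPolynomial.map_X, h2]
  have heinj : Function.Injective e := by
    rw [he1]
    exact hg1.comp (MvPolynomial.map_injective _ (RingHom.injective_int _))
  have heD : e D ≠ 0 := by
    intro h0
    exact hD (heinj (by rw [h0, map_zero]))
  have hψD : ψ (AdjoinRoot.of f D) = e D := AdjoinRoot.lift_of _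
  let φ : Localization.Away (AdjoinRoot.of f D) →+* L :=
    IsLocalization.Away.lift (AdjoinRoot.of f D) (g := ψ) (by
      rw [hψD]
      exact isUnit_iff_ne_zero.2 heD)
  have hφ : ∀ P, φ (algebraMap (AdjoinRoot f) _ P) = ψ P := fun P =>
    IsLocalization.Away.lift_eq _ _ _
  refine ⟨Localization.Away (AdjoinRoot.of f D), inferInstance, φ, ?_, ?_, ?_⟩
  · rw [injective_iff_map_eq_zero]
    intro x hx
    obtain ⟨⟨P, s⟩, hPs⟩ := IsLocalization.surj (Submonoid.powers (AdjoinRoot.of f D)) x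
    have h1 := congrArg φ hPs
    rw [map_mul, hx, zero_mul, hφ] at h1
    have h2 : P = 0 := hψ (by rw [← h1, map_zero])
    simp only [h2, map_zero] at hPs
    have hu : IsUnit (algebraMap (AdjoinRoot f) (Localization.Away (AdjoinRoot.of f D)) s) :=
      IsLocalization.map_units _ s
    exact (hu.mul_left_eq_zero).1 hPs
  · intro t ht
    obtain ⟨P, hP⟩ := hT t ht
    refine ⟨IsLocalization.mk' _ (AdjoinRoot.mk f P) (⟨AdjoinRoot.of f D,
      Submonoid.mem_powers _⟩ : Submonoid.powers (AdjoinRoot.of f D)), ?_⟩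
    have h1 := IsLocalization.mk'_spec (Localization.Away (AdjoinRoot.of f D)) (AdjoinRoot.mk f P)
      (⟨AdjoinRoot.of f D, Submonoid.mem_powers _⟩ : Submonoid.powers (AdjoinRoot.of f D))
    have h2 := congrArg φ h1
    rw [map_mul, hφ, hφ, hψD] at h2
    have h3 : ψ (AdjoinRoot.mk f P) = eval₂ e y P := AdjoinRoot.lift_mk _ _
    rw [h3] at h2
    exact mul_right_cancel₀ heD (h2.trans hP.symm)
  · intro Ω _ _ _ g m hm ζ hζ h hgζ B0
    let φQ : FractionRing (MvPolynomial ι ℚ) →+* L := IsFractionRing.lift hg1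
    have hφQ : ∀ r, φQ (algebraMap _ _ r) = g1 r := fun r => IsFractionRing.lift_algebraMap hg1 r
    let a1 : Algebra (FractionRing (MvPolynomial ι ℚ)) L := φQ.toAlgebra
    let a2 : Algebra (FractionRing (MvPolynomial ι ℚ)) Ω := ((algebraMap L Ω).comp φQ).toAlgebra
    have t1 : IsScalarTower (FractionRing (MvPolynomial ι ℚ)) L Ω :=
      IsScalarTower.of_algebraMap_eq' rfl
    have hcomp : (algebraMap (FractionRing (MvPolynomial ι ℚ)) Ω).comp (i0 ι) =
        (algebraMap L Ω).comp e := by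
      have h1 : algebraMap (FractionRing (MvPolynomial ι ℚ)) Ω = (algebraMap L Ω).comp φQ := rfl
      have h2 : φQ.comp (algebraMap (MvPolynomial ι ℚ) (FractionRing (MvPolynomial ι ℚ))) = g1 :=
        RingHom.ext hφQ
      have h3 : φQ.comp (i0 ι) = e := by
        rw [he1, ← h2]
        rfl
      rw [h1, RingHom.comp_assoc, h3]
    obtain ⟨a, ha, F, iF, iN, iG, σ, y', ζ', h1, h2, h3, h4⟩ := spec_part f hmon D hD Ω
      (algebraMap L Ω y) (by
        rw [hcomp, ← hom_eval₂, hzero, map_zero]) m hm ζ hζ h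
      (g.restrictScalars (FractionRing (MvPolynomial ι ℚ))) (g.commutes y) hgζ
    exact prime_part f hmon D hdom hdisc a ha F σ y' ζ' h1 m hm h2 h h3 h4 B0

end

end Pool.Agent.Helper27.LG
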