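import Pool.Agent.Helper27.LG.Key

/-!
Finitely generated linear groups are defined over a finitely generated ring; the engine with the
Chebotarev theorem.
-/

set_option autoImplicit false
set_option linter.unusedSectionVars false

open Pool.Agent.H80R2.BC (GMat vdim kerA)

namespace Pool.Agent.Helper27.LG

section
variable {L : Type} [Field L]

/-- the entries of the generators and their inverses -/
theorem lift_fg {G : Type} [Group G] {n : ℕ}
    (θ : G →* Matrix.GeneralLinearGroup (Fin n) L) (hθ : Function.Injective θ)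
    (H : Subgroup G) (hH : H.FG) :
    ∃ T : Finset L, ∀ (B : Type) [CommRing B] (ψ : B →+* L), Function.Injective ψ →
      (∀ t ∈ T, t ∈ Set.range ψ) →
      ∃ θ' : H →* Matrix (Fin n) (Fin n) B, Function.Injective θ' := by
  classical
  obtain ⟨S, hS⟩ := hH
  let T : Finset L := (S.biUnion fun g => Finset.univ.biUnion fun i => Finset.univ.image fun j =>
    (θ g : Matrix (Fin n) (Fin n) L) i j) ∪ (S.biUnion fun g => Finset.univ.biUnion fun i =>
      Finset.univ.image fun j => (θ g⁻¹ : Matrix (Fin n) (Fin n) L) i j)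
  refine ⟨T, ?_⟩
  intro B _ ψ hinj hT
  have hrange : ∀ x ∈ T, ∃ y, ψ y = x := hT
  have hψm : Function.Injective (ψ.mapMatrix : Matrix (Fin n) (Fin n) B →+*
      Matrix (Fin n) (Fin n) L) := by
    intro M N hMN
    ext i j
    apply hinj
    exact congrFun (congrFun hMN i) j
  have hmem : ∀ g : G, g ∈ H → (∃ M, ψ.mapMatrix M = (θ g : Matrix (Fin n) (Fin n) L)) ∧
      (∃ M, ψ.mapMatrix M = (θ g⁻¹ : Matrix (Fin n) (Fin n) L)) := by
    intro g hg
    rw [← hS] at hg
    induction hg using Subgroup.closure_induction with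
    | mem x hx =>
      constructor
      · have h1 : ∀ i j, ∃ y, ψ y = (θ x : Matrix (Fin n) (Fin n) L) i j := by
          intro i j
          apply hrange
          simp only [T, Finset.mem_union, Finset.mem_biUnion, Finset.mem_image, Finset.mem_univ,
            true_and]
          exact Or.inl ⟨x, hx, i, j, rfl⟩
        choose y hy using h1
        exact ⟨Matrix.of y, by ext i j; exact hy i j⟩
      · have h1 : ∀ i j, ∃ y, ψ y = (θ x⁻¹ : Matrix (Fin n) (Fin n) L) i j := by
          intro i j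
          apply hrange
          simp only [T, Finset.mem_union, Finset.mem_biUnion, Finset.mem_image, Finset.mem_univ,
            true_and]
          exact Or.inr ⟨x, hx, i, j, rfl⟩
        choose y hy using h1
        exact ⟨Matrix.of y, by ext i j; exact hy i j⟩
    | one =>
      constructor
      · exact ⟨1, by rw [map_one, map_one]; rfl⟩
      · exact ⟨1, by rw [map_one, inv_one, map_one]; rfl⟩
    | mul x y _ _ hx hy =>
      obtain ⟨⟨M, hM⟩, M', hM'⟩ := hx
      obtain ⟨⟨N, hN⟩, N', hN'⟩ := hy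
      constructor
      · exact ⟨M * N, by rw [map_mul, hM, hN, map_mul, Units.val_mul]⟩
      · exact ⟨N' * M', by rw [map_mul, hM', hN', mul_inv_rev, map_mul, Units.val_mul]⟩
    | inv x _ hx =>
      obtain ⟨hM, hM'⟩ := hx
      exact ⟨hM', by rw [inv_inv]; exact hM⟩
  choose M hM using fun g : H => (hmem g g.2).1
  let θ' : H →* Matrix (Fin n) (Fin n) B :=
    { toFun := M
      map_one' := by
        apply hψm
        rw [hM, map_one]
        simp
      map_mul' := by
        intro x y
        apply hψm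
        rw [map_mul, hM, hM, hM]
        simp }
  refine ⟨θ', ?_⟩
  intro x y hxy
  apply Subtype.ext
  apply hθ
  apply Units.ext
  rw [← hM, ← hM]
  exact congrArg _ hxy

/-- **The engine with Chebotarev.** -/
theorem engine2 {G : Type} [Group G] [CharZero L] {n : ℕ}
    (θ : G →* Matrix.GeneralLinearGroup (Fin n) L) (hθ : Function.Injective θ)
    {ι κ : Type} [Fintype ι] [Fintype κ] (A : GMat κ ι G)
    (Ω : Type) [Field Ω] [IsAlgClosed Ω] [Algebra L Ω] (g : Ω ≃ₐ[L] Ω) (m : ℕ) (hm : 0 < m)
    (ζ : Ω) (hζ : IsPrimitiveRoot ζ m) (h : ℕ) (hg : g ζ = ζ ^ h) (B0 : ℕ) :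
    ∃ p, B0 < p ∧ p.Prime ∧ p ≡ h [MOD m] ∧ ∃ z : ℤ,
      (Nat.card (Matrix.GeneralLinearGroup (Fin n) (ZMod p)) : ℝ) * vdim (kerA A) = z := by
  obtain ⟨H, hH, A', hA'⟩ := fg_red A
  obtain ⟨T, hT⟩ := lift_fg θ hθ H hH
  obtain ⟨B, iB, ψ, hψ, hTψ, hB⟩ := exists_ring L T
  obtain ⟨θ', hθ'⟩ := hT B ψ hψ hTψ
  obtain ⟨p, hp, hpf, hmod, hsep⟩ := hB Ω g m hm ζ hζ h hg (max B0 2)
  refine ⟨p, lt_of_le_of_lt (le_max_left _ _) hp, hpf.out, hmod, ?_⟩
  rw [hA']
  exact engine (by
    have := le_max_right B0 2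
    omega) hsep θ' hθ' A'

end

end Pool.Agent.Helper27.LG
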