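import Pool.Agent.Helper27.LG.Two2
import Pool.Agent.Helper27.LG.Lift

/-!
The denominators of the von Neumann dimensions for linear groups.
-/

set_option autoImplicit false
set_option linter.unusedSectionVars false

open Pool.Agent.H80R2.BC (GMat vdim kerA)
open Pool.Agent.Helper93.IW (combine)

namespace Pool.Agent.Helper27.LG

theorem Good.mono {L : Type} [Field L] {n l k k' : ℕ} (h : Good L n l k) (hk : k ≤ k') :
    Good L n l k' := by
  obtain ⟨Ω, i1, i2, i3, g, m, ζ, h', h1, h2, h3, h4⟩ := h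
  exact ⟨Ω, i1, i2, i3, g, m, ζ, h', h1, h2, h3, fun p hp hl hm => (h4 p hp hl hm).trans hk⟩

section

variable {L : Type} [Field L] [CharZero L]

theorem int_of_good {G : Type} [Group G] {n : ℕ}
    (θ : G →* Matrix.GeneralLinearGroup (Fin n) L) (hθ : Function.Injective θ)
    {ι κ : Type} [Fintype ι] [Fintype κ] (A : GMat κ ι G) (C : ℕ) (hC : C ≠ 0)
    (h : ∀ l : ℕ, l.Prime → Good L n l (C.factorization l)) :
    ∃ z : ℤ, (C : ℝ) * vdim (kerA A) = z := by
  apply combine _ C hC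
  intro l hl
  obtain ⟨Ω, i1, i2, i3, g, m, ζ, h', h1, h2, h3, h4⟩ := h l hl
  obtain ⟨p, hp1, hp2, hp3, hp4⟩ := engine2 θ hθ A Ω g m h1 ζ h2 h' h3 l
  have hpf : Fact p.Prime := ⟨hp2⟩
  exact ⟨_, Nat.card_pos.ne', h4 p hpf hp1 hp3, hp4⟩

variable {R : Type} [CommRing R] [IsDomain R] [IsIntegrallyClosed R] [CharZero R]
  [Algebra R L] [IsFractionRing R L]

/-- **Main theorem**, general case. -/
theorem main1 {G : Type} [Group G] {n : ℕ}
    (θ : G →* Matrix.GeneralLinearGroup (Fin n) L) (hθ : Function.Injective θ) (d : ℕ)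
    (hd : ∀ H : Subgroup (Matrix.GeneralLinearGroup (Fin n) R), Finite H → Nat.card H ∣ d)
    {ι κ : Type} [Fintype ι] [Fintype κ] (A : GMat κ ι G) :
    ∃ z : ℤ, ((2 ^ (n / 2) * d : ℕ) : ℝ) * vdim (kerA A) = z := by
  rcases eq_or_ne d 0 with hd0 | hd0
  · exact ⟨0, by rw [hd0]; simp⟩
  apply int_of_good θ hθ A _ (mul_ne_zero (by positivity) hd0)
  intro l hl
  rw [Nat.factorization_mul (by positivity) hd0, Finsupp.add_apply,
    Nat.prime_two.factorization_pow]
  by_cases hl2 : l = 2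
  · subst hl2
    rw [Finsupp.single_eq_same]
    by_cases hi : ∃ x : R, x * x = -1
    · obtain ⟨x, hx⟩ := hi
      exact (good_two_i n d hd0 hd x hx).mono (Nat.le_add_left _ _)
    · exact good_two n d hd0 hd hi (n / 2) 2 le_rfl (Or.inl rfl)
  · exact (good_odd n d l hd0 hd hl hl2).mono (Nat.le_add_left _ _)

/-- **Main theorem**, non-real case. -/
theorem main2 {G : Type} [Group G] {n : ℕ}
    (θ : G →* Matrix.GeneralLinearGroup (Fin n) L) (hθ : Function.Injective θ) (d : ℕ)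
    (hd : ∀ H : Subgroup (Matrix.GeneralLinearGroup (Fin n) R), Finite H → Nat.card H ∣ d)
    (hR : (∃ x : R, x * x = -1) ∨ ∃ s, 2 ≤ s ∧ NRs L s)
    {ι κ : Type} [Fintype ι] [Fintype κ] (A : GMat κ ι G) :
    ∃ z : ℤ, (d : ℝ) * vdim (kerA A) = z := by
  rcases eq_or_ne d 0 with hd0 | hd0
  · exact ⟨0, by rw [hd0]; simp⟩
  apply int_of_good θ hθ A _ hd0
  intro l hl
  by_cases hl2 : l = 2
  · subst hl2
    by_cases hi : ∃ x : R, x * x = -1
    · obtain ⟨x, hx⟩ := hi
      exact good_two_i n d hd0 hd x hx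
    · obtain ⟨s, hs, hNR⟩ := hR.resolve_left hi
      have h1 := good_two n d hd0 hd hi 0 s hs (Or.inr ⟨rfl, hNR⟩)
      rwa [zero_add] at h1
  · exact good_odd n d l hd0 hd hl hl2

end

end Pool.Agent.Helper27.LG
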