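import Pool.Agent.Helper27.LG.Fin

/-!
Finite subgroups of the general linear group over an integrally closed domain.
-/

set_option autoImplicit false
set_option linter.unusedSectionVars false

open Polynomial

namespace Pool.Agent.Helper27.LG

section
variable {R : Type} [CommRing R] [IsDomain R]

theorem exists_subgroup1 {S : Type} [AddCommGroup S] [Module R S] [Module.Free R S]
    [Module.Finite R S] [Nontrivial S] {N n q : ℕ} (h : HasFin R S N)
    (hq : q * Module.finrank R S ≤ n) :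
    ∃ H : Subgroup (Matrix.GeneralLinearGroup (Fin n) R), Finite H ∧
      Nat.card H = N ^ q * q.factorial := by
  have h1 : HasFin R ((Fin q → S) × (Fin (n - q * Module.finrank R S) → R))
      (N ^ q * q.factorial * 1) := (h.wr q).prod HasFin.one
  rw [mul_one] at h1
  have hfr : Module.finrank R ((Fin q → S) × (Fin (n - q * Module.finrank R S) → R)) =
      Module.finrank R (Fin n → R) := by
    rw [Module.finrank_prod, Module.finrank_pi_fintype, Module.finrank_fin_fun,
      Module.finrank_fin_fun, Finset.sum_const, Finset.card_univ, Fintype.card_fin, smul_eq_mul]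
    omega
  exact (h1.congr (LinearEquiv.ofFinrankEq _ _ hfr)).exists_subgroup

theorem exists_subgroup2 {S : Type} [AddCommGroup S] [Module R S] [Module.Free R S]
    [Module.Finite R S] [Nontrivial S] {N n q : ℕ} (h : HasFin R S N) (hR : (1 : R) ≠ -1)
    (hq : q * Module.finrank R S < n) :
    ∃ H : Subgroup (Matrix.GeneralLinearGroup (Fin n) R), Finite H ∧
      Nat.card H = N ^ q * q.factorial * 2 := by
  have h1 : HasFin R ((Fin q → S) × (Fin (n - q * Module.finrank R S) → R))
      (N ^ q * q.factorial * 2) := by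
    apply (h.wr q).prod
    apply hasFin_neg (fun _ => (1 : R))
    intro h2
    have h3 := congrFun h2 ⟨0, by omega⟩
    exact hR h3
  have hfr : Module.finrank R ((Fin q → S) × (Fin (n - q * Module.finrank R S) → R)) =
      Module.finrank R (Fin n → R) := by
    rw [Module.finrank_prod, Module.finrank_pi_fintype, Module.finrank_fin_fun,
      Module.finrank_fin_fun, Finset.sum_const, Finset.card_univ, Fintype.card_fin, smul_eq_mul]
    omega
  exact (h1.congr (LinearEquiv.ofFinrankEq _ _ hfr)).exists_subgroup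

variable [IsIntegrallyClosed R] {L M : Type} [Field L] [Algebra R L] [IsFractionRing R L]
  [Field M] [Algebra R M] [Algebra L M] [IsScalarTower R L M]

theorem natDegree_minpoly (ω : M) (hω : IsIntegral R ω) :
    (minpoly R ω).natDegree = (minpoly L ω).natDegree := by
  rw [minpoly.isIntegrallyClosed_eq_field_fractions' L hω, (minpoly.monic hω).natDegree_map]

/-- the data of the ring generated by an integral element -/
theorem adjoin_data (ω : M) (hω : IsIntegral R ω) :
    Module.Free R (AdjoinRoot (minpoly R ω)) ∧ Module.Finite R (AdjoinRoot (minpoly R ω)) ∧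
    Module.finrank R (AdjoinRoot (minpoly R ω)) = (minpoly L ω).natDegree ∧
    ∃ j : AdjoinRoot (minpoly R ω) →ₐ[R] M, Function.Injective j ∧ j (AdjoinRoot.root _) = ω := by
  have hinj : Function.Injective (algebraMap R M) := by
    rw [IsScalarTower.algebraMap_eq R L M]
    exact (algebraMap L M).injective.comp (IsFractionRing.injective R L)
  have hfaith : FaithfulSMul R M := (faithfulSMul_iff_algebraMap_injective R M).2 hinj
  have hmon := minpoly.monic hω
  refine ⟨hmon.free_adjoinRoot, hmon.finite_adjoinRoot, ?_, ?_⟩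
  · rw [← natDegree_minpoly (R := R) (L := L) ω hω, ← AdjoinRoot.powerBasis'_dim hmon,
      PowerBasis.finrank]
  · have h0 : eval₂ (algebraMap R M) ω (minpoly R ω) = 0 := minpoly.aeval R ω
    let j : AdjoinRoot (minpoly R ω) →ₐ[R] M :=
      AdjoinRoot.liftAlgHom (minpoly R ω) (Algebra.ofId R M) ω h0
    refine ⟨j, ?_, ?_⟩
    · rw [injective_iff_map_eq_zero]
      intro a ha
      obtain ⟨g, rfl⟩ := AdjoinRoot.mk_surjective a
      rw [AdjoinRoot.mk_eq_zero]
      apply minpoly.isIntegrallyClosed_dvd hω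
      exact ha
    · exact AdjoinRoot.liftAlgHom_root _ _ _ _

theorem dvd_of_root {N n q d : ℕ} (hN : 0 < N)
    (hd : ∀ H : Subgroup (Matrix.GeneralLinearGroup (Fin n) R), Finite H → Nat.card H ∣ d)
    (ω : M) (hω : IsPrimitiveRoot ω N) (hdeg : q * (minpoly L ω).natDegree ≤ n) :
    N ^ q * q.factorial ∣ d := by
  have hωi : IsIntegral R ω := (hω.isIntegral hN).tower_top
  obtain ⟨h1, h2, h3, j, hj, hjr⟩ := adjoin_data (R := R) (L := L) ω hωi
  have hdom : IsDomain (AdjoinRoot (minpoly R ω)) := hj.isDomain j.toRingHom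
  have hroot : IsPrimitiveRoot (AdjoinRoot.root (minpoly R ω)) N :=
    IsPrimitiveRoot.of_map_of_injective (f := j) (by rw [hjr]; exact hω) hj
  have hu : IsPrimitiveRoot (hroot.isUnit hN.ne').unit N := hroot.isUnit_unit hN.ne'
  have hfin : IsOfFinOrder (hroot.isUnit hN.ne').unit := hu.isOfFinOrder hN.ne'
  have hF := hasFin_unit (R := R) _ hfin
  rw [← hu.eq_orderOf] at hF
  obtain ⟨H, hH, hcard⟩ := exists_subgroup1 (n := n) (q := q) hF (by rw [h3]; exact hdeg)
  rw [← hcard]
  exact hd H hH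

/-- the group generated by a root of unity and an involution -/
theorem hasFin_root2 {N h : ℕ} (hN : 0 < N) (ω : M) (hω : IsPrimitiveRoot ω N)
    (σ : M ≃ₐ[L] M) (hσ : σ ω = ω ^ h) (hσσ : σ (σ ω) = ω) (hne : σ ω ≠ ω) :
    HasFin R (AdjoinRoot (minpoly R ω)) (N * 2) := by
  have hωi : IsIntegral R ω := (hω.isIntegral hN).tower_top
  obtain ⟨h1, h2, h3, j, hj, hjr⟩ := adjoin_data (R := R) (L := L) ω hωi
  have hdom : IsDomain (AdjoinRoot (minpoly R ω)) := hj.isDomain j.toRingHom
  have hroot : IsPrimitiveRoot (AdjoinRoot.root (minpoly R ω)) N :=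
    IsPrimitiveRoot.of_map_of_injective (f := j) (by rw [hjr]; exact hω) hj
  have hz : eval₂ (algebraMap R (AdjoinRoot (minpoly R ω)))
      (AdjoinRoot.root (minpoly R ω) ^ h) (minpoly R ω) = 0 := by
    have h4 : aeval (AdjoinRoot.root (minpoly R ω) ^ h) (minpoly R ω) = 0 := by
      apply hj
      rw [map_zero, ← aeval_algHom_apply, map_pow, hjr, ← hσ]
      have h5 := aeval_algHom_apply (σ.restrictScalars R).toAlgHom ω (minpoly R ω)
      rw [minpoly.aeval, map_zero] at h5
      exact h5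
    exact h4
  let τ0 : AdjoinRoot (minpoly R ω) →ₐ[R] AdjoinRoot (minpoly R ω) :=
    AdjoinRoot.liftAlgHom (minpoly R ω) (Algebra.ofId R _) (AdjoinRoot.root (minpoly R ω) ^ h) hz
  have hτ0 : τ0 (AdjoinRoot.root _) = AdjoinRoot.root (minpoly R ω) ^ h :=
    AdjoinRoot.liftAlgHom_root _ _ _ _
  have hjτ : j (τ0 (AdjoinRoot.root _)) = σ ω := by
    rw [hτ0, map_pow, hjr, hσ]
  have hττ : τ0.comp τ0 = AlgHom.id R _ := by
    apply AdjoinRoot.algHom_ext
    apply hj
    rw [AlgHom.comp_apply, hτ0, map_pow, hτ0, map_pow, map_pow, hjr, AlgHom.id_apply, hjr,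
      ← hσ, ← map_pow, ← hσ, hσσ]
  let τ : AdjoinRoot (minpoly R ω) ≃ₐ[R] AdjoinRoot (minpoly R ω) := AlgEquiv.ofAlgHom τ0 τ0 hττ hττ
  have hNe : NeZero N := ⟨hN.ne'⟩
  apply hasFin_semi hroot τ
  · ext x
    exact AlgHom.congr_fun hττ x
  · intro h4
    apply hne
    have h5 : τ0 (AdjoinRoot.root (minpoly R ω)) = AdjoinRoot.root _ :=
      AlgEquiv.congr_fun h4 (AdjoinRoot.root (minpoly R ω))
    rw [← hjτ, h5, hjr]

theorem dvd_of_root2 {N h n q d : ℕ} (hN : 0 < N)
    (hd : ∀ H : Subgroup (Matrix.GeneralLinearGroup (Fin n) R), Finite H → Nat.card H ∣ d)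
    (ω : M) (hω : IsPrimitiveRoot ω N)
    (σ : M ≃ₐ[L] M) (hσ : σ ω = ω ^ h) (hσσ : σ (σ ω) = ω) (hne : σ ω ≠ ω)
    (hdeg : q * (minpoly L ω).natDegree ≤ n) :
    (N * 2) ^ q * q.factorial ∣ d := by
  have hωi : IsIntegral R ω := (hω.isIntegral hN).tower_top
  obtain ⟨h1, h2, h3, j, hj, hjr⟩ := adjoin_data (R := R) (L := L) ω hωi
  have hdom : IsDomain (AdjoinRoot (minpoly R ω)) := hj.isDomain j.toRingHom
  obtain ⟨H, hH, hcard⟩ := exists_subgroup1 (n := n) (q := q)
    (hasFin_root2 (R := R) (L := L) hN ω hω σ hσ hσσ hne) (by rw [h3]; exact hdeg)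
  rw [← hcard]
  exact hd H hH

theorem dvd_of_root3 {N h n q d : ℕ} (hN : 0 < N) (hR : (1 : R) ≠ -1)
    (hd : ∀ H : Subgroup (Matrix.GeneralLinearGroup (Fin n) R), Finite H → Nat.card H ∣ d)
    (ω : M) (hω : IsPrimitiveRoot ω N)
    (σ : M ≃ₐ[L] M) (hσ : σ ω = ω ^ h) (hσσ : σ (σ ω) = ω) (hne : σ ω ≠ ω)
    (hdeg : q * (minpoly L ω).natDegree < n) :
    (N * 2) ^ q * q.factorial * 2 ∣ d := by
  have hωi : IsIntegral R ω := (hω.isIntegral hN).tower_top
  obtain ⟨h1, h2, h3, j, hj, hjr⟩ := adjoin_data (R := R) (L := L) ω hωi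
  have hdom : IsDomain (AdjoinRoot (minpoly R ω)) := hj.isDomain j.toRingHom
  obtain ⟨H, hH, hcard⟩ := exists_subgroup2 (n := n) (q := q)
    (hasFin_root2 (R := R) (L := L) hN ω hω σ hσ hσσ hne) hR (by rw [h3]; exact hdeg)
  rw [← hcard]
  exact hd H hH

end

end Pool.Agent.Helper27.LG
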