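import Pool.Agent.Helper27.LG.Eng
import Pool.Agent.Helper27.LG.Emb

/-!
Many homomorphisms from a localised polynomial ring over the integers of a number field.
-/

set_option autoImplicit false
set_option linter.unusedSectionVars false

open NumberField

namespace Pool.Agent.Helper27.LG

section
variable {K : Type} [Field K] [NumberField K] {σ : Type}

theorem isUnit_of_toZMod {p : ℕ} [Fact p.Prime] {x : ℤ_[p]} (h : PadicInt.toZMod x ≠ 0) :
    IsUnit x := by
  by_contra hcon
  apply h
  have h2 : x ∈ RingHom.ker (PadicInt.toZMod (p := p)) := by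
    rw [PadicInt.ker_toZMod, IsLocalRing.mem_maximalIdeal]
    exact hcon
  exact h2

theorem toZMod_eq_zero_of_dvd {p : ℕ} [Fact p.Prime] {x : ℤ_[p]} (h : (p : ℤ_[p]) ∣ x) :
    PadicInt.toZMod x = 0 := by
  obtain ⟨y, rfl⟩ := h
  rw [map_mul, map_natCast, ZMod.natCast_self, zero_mul]

theorem dvd_of_toZMod {p : ℕ} [Fact p.Prime] {x : ℤ_[p]} (h : PadicInt.toZMod x = 0) :
    (p : ℤ_[p]) ∣ x := by
  have h2 : x ∈ RingHom.ker (PadicInt.toZMod (p := p)) := h
  rw [PadicInt.ker_toZMod, PadicInt.maximalIdeal_eq_span_p, Ideal.mem_span_singleton] at h2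
  exact h2

theorem exists_sep (f : MvPolynomial σ (𝓞 K)) (hf : f ≠ 0) :
    ∃ D : ℕ, 0 < D ∧ ∀ (p : ℕ) [Fact p.Prime], ¬ p ∣ D → Nonempty (K →+* ℚ_[p]) →
      Sep p (Localization.Away f) := by
  classical
  obtain ⟨a0, ha0⟩ : ∃ a0 : σ → 𝓞 K, MvPolynomial.eval a0 f ≠ 0 := by
    by_contra hcon
    push Not at hcon
    exact hf (MvPolynomial.funext (fun x => by rw [hcon x, map_zero]))
  obtain ⟨D, hD, hdvd⟩ := dvd_nat _ ha0
  refine ⟨D, hD, ?_⟩
  intro p hp hpD ⟨ι⟩
  obtain ⟨j, hj⟩ := exists_int_emb ι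
  let ev : (σ → ℤ_[p]) → (MvPolynomial σ (𝓞 K) →+* ℤ_[p]) := fun β => MvPolynomial.eval₂Hom j β
  let α : σ → ℤ_[p] := fun i => j (a0 i)
  have hα : IsUnit (ev α f) := by
    have h1 : ev α f = j (MvPolynomial.eval a0 f) := by
      have h2 := MvPolynomial.eval₂_comp_left j (RingHom.id (𝓞 K)) a0 f
      rw [RingHom.comp_id] at h2
      exact h2.symm
    rw [h1]
    exact isUnit_of_dvd j hdvd hpD
  have hcong : ∀ β : σ → ℤ_[p], (∀ i, PadicInt.toZMod (β i) = PadicInt.toZMod (α i)) →
      (PadicInt.toZMod (p := p)).comp (ev β) = (PadicInt.toZMod (p := p)).comp (ev α) := by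
    intro β hβ
    apply MvPolynomial.ringHom_ext
    · intro r
      simp [ev]
    · intro i
      simp only [ev, RingHom.comp_apply, MvPolynomial.coe_eval₂Hom, MvPolynomial.eval₂_X]
      exact hβ i
  have hunit : ∀ β : σ → ℤ_[p], (∀ i, PadicInt.toZMod (β i) = PadicInt.toZMod (α i)) →
      IsUnit (ev β f) := by
    intro β hβ
    apply isUnit_of_toZMod
    have h1 := RingHom.congr_fun (hcong β hβ) f
    rw [RingHom.comp_apply, RingHom.comp_apply] at h1
    rw [h1]
    exact (hα.map (PadicInt.toZMod (p := p))).ne_zero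
  let lf : ∀ β : σ → ℤ_[p], IsUnit (ev β f) → (Localization.Away f →+* ℤ_[p]) :=
    fun β h => IsLocalization.Away.lift f h
  refine ⟨lf α hα, ?_⟩
  intro x hx
  obtain ⟨⟨P, s⟩, hPs⟩ := IsLocalization.surj (Submonoid.powers f) x
  have hP : P ≠ 0 := by
    rintro rfl
    simp only [map_zero] at hPs
    have hu : IsUnit (algebraMap (MvPolynomial σ (𝓞 K)) (Localization.Away f) s) :=
      IsLocalization.map_units _ s
    exact hx ((hu.mul_left_eq_zero).1 hPs)
  have hmP : MvPolynomial.map j P ≠ 0 := by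
    intro h
    apply hP
    apply MvPolynomial.map_injective j hj
    rw [h, map_zero]
  obtain ⟨β, hβs, hβ⟩ : ∃ β : σ → ℤ_[p], β ∈ Set.pi Set.univ (fun i => Set.range
      (fun y : ℤ_[p] => α i + p * y)) ∧ MvPolynomial.eval β (MvPolynomial.map j P) ≠ 0 := by
    by_contra hcon
    push Not at hcon
    apply hmP
    apply MvPolynomial.funext_set (s := fun i => Set.range (fun y : ℤ_[p] => α i + p * y))
    · intro i
      apply Set.infinite_range_of_injective
      intro y z hyz
      have hp0 : (p : ℤ_[p]) ≠ 0 := by exact_mod_cast hp.out.ne_zero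
      exact mul_left_cancel₀ hp0 (add_left_cancel hyz)
    · intro z hz
      rw [hcon z hz, map_zero]
  have hβα : ∀ i, PadicInt.toZMod (β i) = PadicInt.toZMod (α i) := by
    intro i
    obtain ⟨y, hy⟩ := hβs i (Set.mem_univ i)
    simp only at hy
    rw [← hy, map_add, map_mul, map_natCast, ZMod.natCast_self, zero_mul, add_zero]
  refine ⟨lf β (hunit β hβα), ?_, ?_⟩
  · have h1 : (PadicInt.toZMod (p := p)).comp (lf β (hunit β hβα)) =
        (PadicInt.toZMod (p := p)).comp (lf α hα) := by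
      apply IsLocalization.ringHom_ext (Submonoid.powers f)
      rw [RingHom.comp_assoc, RingHom.comp_assoc]
      simp only [lf, IsLocalization.Away.lift_comp]
      exact hcong β hβα
    intro y
    apply dvd_of_toZMod
    rw [map_sub, sub_eq_zero]
    exact RingHom.congr_fun h1 y
  · intro h
    apply hβ
    have h1 := congrArg (lf β (hunit β hβα)) hPs
    rw [map_mul, h, zero_mul] at h1
    have h2 : lf β (hunit β hβα) (algebraMap _ _ P) = ev β P := IsLocalization.Away.lift_eq _ _ _
    rw [h2] at h1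
    rw [MvPolynomial.eval_map]
    exact h1.symm

end

end Pool.Agent.Helper27.LG
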