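import Pool.Graph.R_seed8.H880R2.Hilb.E1
import Pool.Agent.Helper27.LG.Fg

/-!
Specialisation by Hilbert's irreducibility theorem.
-/

set_option autoImplicit false
set_option linter.unusedSectionVars false
set_option maxHeartbeats 4000000
set_option synthInstance.maxHeartbeats 400000

open Polynomial

namespace Pool.Agent.Helper27.LG

section

/-- evaluation of an integral polynomial at a rational point -/
noncomputable def evQ {ι : Type} (a : ι → ℚ) : MvPolynomial ι ℤ →+* ℚ :=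
  (MvPolynomial.eval a).comp (MvPolynomial.map (Int.castRingHom ℚ))

theorem spec_part {ι : Type} [Finite ι] (f : (MvPolynomial ι ℤ)[X]) (hmon : f.Monic)
    (D : MvPolynomial ι ℤ) (hD : D ≠ 0) (Ω : Type) [Field Ω] [IsAlgClosed Ω]
    [Algebra (FractionRing (MvPolynomial ι ℚ)) Ω] (y : Ω)
    (hy : eval₂ ((algebraMap (FractionRing (MvPolynomial ι ℚ)) Ω).comp (i0 ι)) y f = 0)
    (m : ℕ) (hm : 0 < m) (ζ : Ω) (hζ : IsPrimitiveRoot ζ m) (h : ℕ)
    (g : Ω ≃ₐ[FractionRing (MvPolynomial ι ℚ)] Ω) (hgy : g y = y) (hgζ : g ζ = ζ ^ h) :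
    ∃ a : ι → ℚ, evQ a D ≠ 0 ∧ ∃ (F : Type) (_ : Field F) (_ : NumberField F),
      IsGalois ℚ F ∧ ∃ (σ : Gal(F/ℚ)) (y' ζ' : F), σ y' = y' ∧ IsPrimitiveRoot ζ' m ∧
        σ ζ' = ζ' ^ h ∧ eval₂ ((algebraMap ℚ F).comp (evQ a)) y' f = 0 := by
  classical
  let Q := FractionRing (MvPolynomial ι ℚ)
  have hcQ : CharZero Q := inferInstance
  have hyint : IsIntegral Q y := by
    refine ⟨f.map (i0 ι), hmon.map _, ?_⟩
    rw [eval₂_map]
    exact hy
  have hζint : IsIntegral Q ζ := by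
    refine ⟨X ^ m - C 1, monic_X_pow_sub_C 1 hm.ne', ?_⟩
    rw [eval₂_sub, eval₂_pow, eval₂_X, eval₂_C, hζ.pow_eq_one, map_one, sub_self]
  obtain ⟨E, hfd, hgal, hS⟩ := Pool.Agent.H298R2.Kuyk.exists_galois (Q := Q) (F := Ω) {y, ζ}
    (Set.toFinite _) (by
      intro x hx
      rcases hx with rfl | hx
      · exact hyint
      · rw [Set.mem_singleton_iff] at hx
        rw [hx]
        exact hζint)
  have hyE : y ∈ E := hS (Set.mem_insert _ _)
  have hζE : ζ ∈ E := hS (Set.mem_insert_of_mem _ (Set.mem_singleton _))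
  let yE : E := ⟨y, hyE⟩
  let ζE : E := ⟨ζ, hζE⟩
  let σ : E ≃ₐ[Q] E := g.restrictNormal E
  have hσ : ∀ z : E, ((σ z : E) : Ω) = g (z : Ω) := fun z => g.restrictNormal_commutes E z
  have hσy : σ yE = yE := Subtype.ext (by rw [hσ]; exact hgy)
  have hσζ : σ ζE = ζE ^ h := Subtype.ext (by rw [hσ]; exact hgζ)
  let aE : Algebra (MvPolynomial ι ℚ) E :=
    ((algebraMap Q E).comp (algebraMap (MvPolynomial ι ℚ) Q)).toAlgebra
  have tE : IsScalarTower (MvPolynomial ι ℚ) Q E := IsScalarTower.of_algebraMap_eq' rfl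
  have hDQ : MvPolynomial.map (Int.castRingHom ℚ) D ≠ 0 := by
    intro h0
    apply hD
    apply MvPolynomial.map_injective (Int.castRingHom ℚ) (RingHom.injective_int _)
    rw [h0, map_zero]
  obtain ⟨a, ha, F, iF, iA, hF1, hF2, ψ, B, hR, hB, Φ, hW, hΦ, hΦσ⟩ :=
    Pool.Agent.H298R2.Kuyk.spec_mv Pool.Agent.H880R2.Hilb.taskE1 (Q := Q) (E := E)
      {yE, ζE} _ hDQ
  have hyB : yE ∈ B := hW (by simp)
  have hζB : ζE ∈ B := hW (by simp)
  have hcF : CharZero F := charZero_of_injective_algebraMap (algebraMap ℚ F).injective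
  have hcF2 : iA = DivisionRing.toRatAlgebra := Subsingleton.elim _ _
  subst hcF2
  have hNF : NumberField F := ⟨⟩
  refine ⟨a, ha, F, iF, hNF, hF2, ψ σ, Φ ⟨yE, hyB⟩, Φ ⟨ζE, hζB⟩, ?_, ?_, ?_, ?_⟩
  · rw [← hΦσ]
    congr 1
    exact Subtype.ext hσy
  · have hne1 : NeZero ((m : ℕ) : B) := ⟨by
      intro h0
      have h1 : ((m : ℕ) : E) = 0 := by
        have := congrArg Subtype.val h0
        simpa using this
      exact hm.ne' (by exact_mod_cast h1)⟩
    have hne2 : NeZero ((m : ℕ) : F) := ⟨by exact_mod_cast hm.ne'⟩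
    have hpB : IsPrimitiveRoot (⟨ζE, hζB⟩ : B) m := by
      apply IsPrimitiveRoot.of_map_of_injective (f := (algebraMap E Ω).comp B.subtype)
      · exact hζ
      · exact (algebraMap E Ω).injective.comp Subtype.val_injective
    have hcyc : (cyclotomic m B).IsRoot ⟨ζE, hζB⟩ := isRoot_cyclotomic_iff.2 hpB
    have hcyc2 : (cyclotomic m F).IsRoot (Φ ⟨ζE, hζB⟩) := by
      rw [← map_cyclotomic m Φ]
      exact hcyc.map
    exact isRoot_cyclotomic_iff.1 hcyc2
  · rw [← hΦσ, ← map_pow]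
    congr 1
    exact Subtype.ext hσζ
  · -- the polynomial
    let j : MvPolynomial ι ℤ →+* B :=
      (((algebraMap (MvPolynomial ι ℚ) E).codRestrict B hR)).comp
        (MvPolynomial.map (Int.castRingHom ℚ))
    have hj : (Φ.comp j) = (algebraMap ℚ F).comp (evQ a) := by
      apply RingHom.ext
      intro r
      exact hΦ _
    rw [← hj, ← hom_eval₂]
    have h1 : eval₂ j (⟨yE, hyB⟩ : B) f = 0 := by
      have hinj : Function.Injective ((algebraMap E Ω).comp B.subtype) :=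
        (algebraMap E Ω).injective.comp Subtype.val_injective
      apply hinj
      rw [hom_eval₂, map_zero]
      exact hy
    rw [h1, map_zero]

end

end Pool.Agent.Helper27.LG
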