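import Pool.Agent.Helper27.LG.Gal

/-!
The choice of the automorphism for the prime `2`.
-/

set_option autoImplicit false
set_option linter.unusedSectionVars false
set_option maxHeartbeats 4000000
set_option synthInstance.maxHeartbeats 400000

open Polynomial
open Pool.Agent.Helper93.IW (dvd_iff_zmod val_GL)

namespace Pool.Agent.Helper27.LG

theorem exists_cyc (L : Type) [Field L] [CharZero L] (N : ℕ) (hN : 0 < N) :
    ∃ (M : Type) (_ : Field M) (_ : Algebra L M), FiniteDimensional L M ∧ IsGalois L M ∧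
      ∃ ζ : M, IsPrimitiveRoot ζ N ∧ ∀ g : M ≃ₐ[L] M, ∃ h : ℕ, g ζ = ζ ^ h := by
  have hne1 : NeZero N := ⟨hN.ne'⟩
  have hne2 : NeZero (N : L) := ⟨by exact_mod_cast hN.ne'⟩
  have hcyc : IsCyclotomicExtension {N} L (CyclotomicField N L) := inferInstance
  have hζ := IsCyclotomicExtension.zeta_spec N L (CyclotomicField N L)
  exact ⟨CyclotomicField N L, inferInstance, inferInstance,
    IsCyclotomicExtension.finiteDimensional {N} L _, IsCyclotomicExtension.isGalois {N} L _, _, hζ,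
    fun g => ⟨_, (IsPrimitiveRoot.autToPow_spec L hζ g).symm⟩⟩

section om

variable {L M : Type} [Field L] [Field M] [Algebra L M] {c : ℕ} {ζ : M}

theorem sq_om2 (hζ : IsPrimitiveRoot ζ (2 ^ c)) (hc : 2 ≤ c) :
    (ζ ^ 2 ^ (c - 2)) * (ζ ^ 2 ^ (c - 2)) = -1 := by
  have h1 := om_prim hζ (by norm_num) hc
  have h2 := h1.pow_eq_one
  have h3 : (ζ ^ 2 ^ (c - 2)) ^ 2 ≠ 1 := h1.pow_ne_one_of_pos_of_lt (by norm_num) (by norm_num)
  have h4 : ((ζ ^ 2 ^ (c - 2)) ^ 2 - 1) * ((ζ ^ 2 ^ (c - 2)) ^ 2 + 1) = 0 := by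
    ring_nf
    ring_nf at h2
    rw [h2]
    ring
  rcases mul_eq_zero.1 h4 with h5 | h5
  · exact absurd (sub_eq_zero.1 h5) h3
  · rw [← pow_two]
    exact eq_neg_of_add_eq_zero_left h5

theorem eq_or_neg {y z : M} (hy : y * y = -1) (hz : z * z = -1) : y = z ∨ y = -z := by
  have h1 : (y - z) * (y + z) = 0 := by
    ring_nf
    rw [pow_two, pow_two, hy, hz]
    ring
  rcases mul_eq_zero.1 h1 with h2 | h2
  · exact Or.inl (sub_eq_zero.1 h2)
  · exact Or.inr (eq_neg_of_add_eq_zero_left h2)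

/-- inversion -/
theorem inv_iff (hζ : IsPrimitiveRoot ζ (2 ^ c)) {k : ℕ} (hk : k ≤ c) {h : ℕ}
    (g : M ≃ₐ[L] M) (hg : g ζ = ζ ^ h) {p : ℕ} (hmod : p ≡ h [MOD 2 ^ c]) :
    g (ζ ^ 2 ^ (c - k)) * ζ ^ 2 ^ (c - k) = 1 ↔ 2 ^ k ∣ p + 1 := by
  rw [act_pow g hg, ← pow_succ, (om_prim hζ (by norm_num) hk).pow_eq_one_iff_dvd]
  have h1 : p + 1 ≡ h + 1 [MOD 2 ^ k] := (hmod.of_dvd (pow_dvd_pow 2 hk)).add_right 1
  exact (h1.dvd_iff dvd_rfl).symm

end om

section two

variable {R : Type} [CommRing R] [IsDomain R] [IsIntegrallyClosed R] [CharZero R]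
  {L : Type} [Field L] [Algebra R L] [IsFractionRing R L]

theorem good_two_i (n d : ℕ) (hd0 : d ≠ 0)
    (hd : ∀ H : Subgroup (Matrix.GeneralLinearGroup (Fin n) R), Finite H → Nat.card H ∣ d)
    (x : R) (hx : x * x = -1) : Good L n 2 (d.factorization 2) := by
  classical
  have hcL : CharZero L := charZero_of_injective_algebraMap (IsFractionRing.injective R L)
  obtain ⟨c, hc⟩ : ∃ c, c = d.factorization 2 + 2 := ⟨_, rfl⟩
  obtain ⟨M, iM, aLM, hfd, hgal, ζ, hζ, hact⟩ := exists_cyc L (2 ^ c) (by positivity)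
  let aRM : Algebra R M := ((algebraMap L M).comp (algebraMap R L)).toAlgebra
  have tRM : IsScalarTower R L M := IsScalarTower.of_algebraMap_eq' rfl
  let P : ℕ → Prop := fun k => ∀ g : M ≃ₐ[L] M, g (ζ ^ 2 ^ (c - k)) = ζ ^ 2 ^ (c - k)
  have hP2 : P 2 := by
    intro g
    have h1 := sq_om2 hζ (by omega : 2 ≤ c)
    have h2 : algebraMap R M x * algebraMap R M x = -1 := by
      rw [← map_mul, hx, map_neg, map_one]
    have h3 : g (algebraMap R M x) = algebraMap R M x := by
      rw [IsScalarTower.algebraMap_apply R L M, g.commutes]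
    rcases eq_or_neg h1 h2 with h4 | h4
    · rw [h4, h3]
    · rw [h4, map_neg, h3]
  obtain ⟨a, ha⟩ : ∃ a, a = Nat.findGreatest P c := ⟨_, rfl⟩
  have hPa : P a := by
    rw [ha]
    exact Nat.findGreatest_spec (by omega : 2 ≤ c) hP2
  have ha2 : 2 ≤ a := by
    rw [ha]
    exact Nat.le_findGreatest (by omega) hP2
  have hac : a ≤ c := by
    rw [ha]
    exact Nat.findGreatest_le c
  have hdeg : (minpoly L (ζ ^ 2 ^ (c - a))).natDegree ≤ 1 := by
    have h1 := natDegree_le_card (L := L) (ζ ^ 2 ^ (c - a)) {ζ ^ 2 ^ (c - a)} (by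
      intro σ
      rw [hPa σ]
      exact Finset.mem_singleton_self _)
    simpa using h1
  have hprim := om_prim hζ (by norm_num : 0 < 2) hac
  have hpow : (2 ^ a) ^ n * n.factorial ∣ d :=
    dvd_of_root (R := R) (L := L) (n := n) (q := n) (by positivity) hd _ hprim (by nlinarith)
  rcases Nat.eq_zero_or_pos n with hn | hn
  · -- `n = 0`
    obtain ⟨h, hh⟩ := hact 1
    refine good_of M 1 (2 ^ c) (by positivity) ζ hζ h hh ?_
    intro p hpf hlp hmod
    rw [val_GL 2 p n Nat.prime_two hlp.ne', hn]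
    simp
  · have hlt : a < c := by
      rcases hac.lt_or_eq with h1 | h1
      · exact h1
      · exfalso
        have h2 : 2 ^ c ∣ d := by
          refine dvd_trans ?_ hpow
          rw [h1]
          exact dvd_mul_of_dvd_left (dvd_pow_self _ hn.ne') _
        have h3 := (Nat.prime_two.pow_dvd_iff_le_factorization hd0).1 h2
        omega
    have hnP : ¬ P (a + 1) := by
      rw [ha] at hlt ⊢
      exact Nat.findGreatest_is_greatest (Nat.lt_succ_self _) hlt
    obtain ⟨g, hg⟩ : ∃ g : M ≃ₐ[L] M, g (ζ ^ 2 ^ (c - (a + 1))) ≠ ζ ^ 2 ^ (c - (a + 1)) := by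
      by_contra hcon
      push Not at hcon
      exact hnP hcon
    obtain ⟨h, hh⟩ := hact g
    refine good_of M g (2 ^ c) (by positivity) ζ hζ h hh ?_
    intro p hpf hlp hmod
    have hp : p.Prime := hpf.out
    have h1 : 2 ^ a ∣ p - 1 := by
      have h2 := (fix_iff' hζ (by norm_num) hac g hh hp hmod 1).1 (by
        rw [pow_one]
        exact hPa g)
      rwa [pow_one] at h2
    have h2 : ¬ 2 ^ (a + 1) ∣ p - 1 := by
      intro h3
      have h4 := (fix_iff' hζ (by norm_num) (by omega : a + 1 ≤ c) g hh hp hmod 1).2 (by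
        rw [pow_one]
        exact h3)
      rw [pow_one] at h4
      exact hg h4
    have hp1 : p - 1 ≠ 0 := by
      have := hp.two_le
      omega
    have hva : padicValNat 2 (p - 1) = a := by
      rw [padicValNat_dvd_iff_le hp1] at h1 h2
      omega
    have h4 : 4 ∣ p - 1 := dvd_trans (by
      have : (4 : ℕ) = 2 ^ 2 := by norm_num
      rw [this]
      exact pow_dvd_pow 2 ha2) h1
    rw [val_GL 2 p n Nat.prime_two hlp.ne']
    have hval : ∀ i ∈ Finset.range n, padicValNat 2 (p ^ (i + 1) - 1) =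
        if 1 ∣ i + 1 then a + padicValNat 2 ((i + 1) / 1) else 0 := by
      intro i _
      rw [if_pos (one_dvd _), Nat.div_one]
      exact val_2a p a hp h4 hva (i + 1) (Nat.succ_pos i)
    rw [Finset.sum_congr rfl hval, sum_t 2 1 a Nat.prime_two one_pos n, Nat.div_one]
    have hne : (2 ^ a) ^ n * n.factorial ≠ 0 :=
      mul_ne_zero (by positivity) (Nat.factorial_ne_zero _)
    have h5 := (Nat.factorization_le_iff_dvd hne hd0).2 hpow 2
    refine le_trans (le_of_eq ?_) h5
    rw [Nat.factorization_mul (by positivity)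
      (Nat.factorial_ne_zero _), Finsupp.add_apply, ← pow_mul, Nat.prime_two.factorization_pow,
      Finsupp.single_eq_same, Nat.factorization_def _ Nat.prime_two]

theorem nr_transport {L F M : Type} [Field L] [CharZero L] [Field F] [Algebra L F] [Field M]
    [Algebra L M] {N : ℕ} (hN : 0 < N) (ζF : F) (hF : IsPrimitiveRoot ζF N) (x : L)
    (hx : algebraMap L F x = ζF - ζF⁻¹) (ω : M) (hω : IsPrimitiveRoot ω N) :
    ∃ ζ' : M, IsPrimitiveRoot ζ' N ∧ algebraMap L M x = ζ' - ζ'⁻¹ := by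
  have hcF : CharZero F := charZero_of_injective_algebraMap (algebraMap L F).injective
  have hcM : CharZero M := charZero_of_injective_algebraMap (algebraMap L M).injective
  have hint : IsIntegral L ζF := by
    refine ⟨X ^ N - C 1, monic_X_pow_sub_C 1 hN.ne', ?_⟩
    rw [eval₂_sub, eval₂_pow, eval₂_X, eval₂_C, hF.pow_eq_one, map_one, sub_self]
  have hd1 : minpoly L ζF ∣ cyclotomic N L := by
    apply minpoly.dvd
    rw [aeval_def, ← eval_map, map_cyclotomic]
    exact hF.isRoot_cyclotomic hN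
  have hF0 : ζF ≠ 0 := hF.ne_zero hN.ne'
  have hd2 : minpoly L ζF ∣ X ^ 2 - C x * X - 1 := by
    apply minpoly.dvd
    simp only [map_sub, map_mul, map_pow, aeval_X, aeval_C, map_one, hx]
    field_simp
    ring
  obtain ⟨z, hz⟩ := IsAlgClosed.exists_aeval_eq_zero (AlgebraicClosure M) (minpoly L ζF)
    (minpoly.degree_pos hint).ne'
  have hne : NeZero ((N : ℕ) : AlgebraicClosure M) := ⟨by
    have hcΩ : CharZero (AlgebraicClosure M) :=
      charZero_of_injective_algebraMap (algebraMap M _).injective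
    exact_mod_cast hN.ne'⟩
  have hzp : IsPrimitiveRoot z N := by
    rw [← isRoot_cyclotomic_iff]
    obtain ⟨w, hw⟩ := hd1
    have h1 : aeval z (cyclotomic N L) = 0 := by rw [hw, map_mul, hz, zero_mul]
    rw [aeval_def, ← eval_map, map_cyclotomic] at h1
    exact h1
  have hNe : NeZero N := ⟨hN.ne'⟩
  obtain ⟨i, -, hi⟩ := (hω.map_of_injective (algebraMap M (AlgebraicClosure M)).injective
    ).eq_pow_of_pow_eq_one hzp.pow_eq_one
  rw [← map_pow] at hi
  have hp : IsPrimitiveRoot (ω ^ i) N :=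
    IsPrimitiveRoot.of_map_of_injective (f := algebraMap M (AlgebraicClosure M))
      (by rw [hi]; exact hzp) (algebraMap M (AlgebraicClosure M)).injective
  refine ⟨ω ^ i, hp, ?_⟩
  have h0 : ω ^ i ≠ 0 := hp.ne_zero hN.ne'
  obtain ⟨w, hw⟩ := hd2
  have h1 : aeval z (X ^ 2 - C x * X - 1 : L[X]) = 0 := by rw [hw, map_mul, hz, zero_mul]
  rw [← hi, aeval_algebraMap_apply] at h1
  have h2 : aeval (ω ^ i) (X ^ 2 - C x * X - 1 : L[X]) = 0 :=
    (algebraMap M (AlgebraicClosure M)).injective (by rw [h1, map_zero])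
  simp only [map_sub, map_mul, aeval_X, aeval_C, map_one] at h2
  rw [map_pow, aeval_X] at h2
  have h3 : algebraMap L M x * ω ^ i = (ω ^ i - (ω ^ i)⁻¹) * ω ^ i := by
    rw [sub_mul, inv_mul_cancel₀ h0]
    linear_combination -h2
  exact mul_right_cancel₀ h0 h3

end two

end Pool.Agent.Helper27.LG
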