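import Pool.Agent.Helper27.LG.Two

/-!
The choice of the automorphism for the prime `2`, without a square root of `-1`.
-/

set_option autoImplicit false
set_option linter.unusedSectionVars false
set_option maxHeartbeats 4000000
set_option synthInstance.maxHeartbeats 400000

open Polynomial
open Pool.Agent.Helper93.IW (dvd_iff_zmod val_GL)

namespace Pool.Agent.Helper27.LG

/-- the non-real case: `L` contains the difference of a root of unity of order a power of two and
its inverse -/
def NRs (L : Type) [Field L] (s : ℕ) : Prop :=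
  ∃ (F : Type) (_ : Field F) (_ : Algebra L F) (ζ : F), IsPrimitiveRoot ζ (2 ^ s) ∧
    ∃ x : L, algebraMap L F x = ζ - ζ⁻¹

section two

variable {R : Type} [CommRing R] [IsDomain R] [IsIntegrallyClosed R] [CharZero R]
  {L : Type} [Field L] [Algebra R L] [IsFractionRing R L]

theorem good_two (n d : ℕ) (hd0 : d ≠ 0)
    (hd : ∀ H : Subgroup (Matrix.GeneralLinearGroup (Fin n) R), Finite H → Nat.card H ∣ d)
    (hno : ¬ ∃ x : R, x * x = -1) (e s : ℕ) (hs2 : 2 ≤ s)
    (he : e = n / 2 ∨ (e = 0 ∧ NRs L s)) : Good L n 2 (e + d.factorization 2) := by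
  classical
  have hcL : CharZero L := charZero_of_injective_algebraMap (IsFractionRing.injective R L)
  obtain ⟨c, hc⟩ : ∃ c, c = d.factorization 2 + 2 + s := ⟨_, rfl⟩
  obtain ⟨M, iM, aLM, hfd, hgal, ζ, hζ, hact⟩ := exists_cyc L (2 ^ c) (by positivity)
  have hcM : CharZero M := charZero_of_injective_algebraMap (algebraMap L M).injective
  let aRM : Algebra R M := ((algebraMap L M).comp (algebraMap R L)).toAlgebra
  have tRM : IsScalarTower R L M := IsScalarTower.of_algebraMap_eq' rfl
  obtain ⟨om, hom⟩ : ∃ om : ℕ → M, om = fun k => ζ ^ 2 ^ (c - k) := ⟨_, rfl⟩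
  have homk : ∀ k, om k = ζ ^ 2 ^ (c - k) := fun k => by rw [hom]
  have hprim : ∀ k ≤ c, IsPrimitiveRoot (om k) (2 ^ k) := fun k hk => by
    rw [homk]
    exact om_prim hζ (by norm_num) hk
  have hsq : om 2 * om 2 = -1 := by
    rw [homk]
    exact sq_om2 hζ (by omega)
  -- some automorphism moves `om 2`
  obtain ⟨σ1, hσ1⟩ : ∃ σ : M ≃ₐ[L] M, σ (om 2) ≠ om 2 := by
    by_contra hcon
    push Not at hcon
    obtain ⟨y, hy⟩ := (IsGalois.mem_range_algebraMap_iff_fixed (F := L) (E := M) (om 2)).2 hcon
    have hyy : y * y = -1 := by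
      apply (algebraMap L M).injective
      rw [map_mul, hy, hsq, map_neg, map_one]
    have hyint : IsIntegral R y := by
      refine ⟨X ^ 2 + C 1, monic_X_pow_add_C 1 (by norm_num), ?_⟩
      rw [eval₂_add, eval₂_pow, eval₂_X, eval₂_C, map_one, pow_two, hyy]
      ring
    obtain ⟨x, hx⟩ := IsIntegrallyClosed.isIntegral_iff.1 hyint
    apply hno
    refine ⟨x, IsFractionRing.injective R L ?_⟩
    rw [map_mul, hx, hyy, map_neg, map_one]
  have hmove : ∀ g : M ≃ₐ[L] M, g (om 2) ≠ om 2 → g (om 2) = -om 2 := by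
    intro g hg
    have h1 : g (om 2) * g (om 2) = -1 := by
      rw [← map_mul, hsq, map_neg, map_one]
    rcases eq_or_neg h1 hsq with h2 | h2
    · exact absurd h2 hg
    · exact h2
  let P : ℕ → Prop := fun k => ∀ g : M ≃ₐ[L] M, g (om 2) = om 2 → g (om k) = om k
  have hP2 : P 2 := fun g hg => hg
  obtain ⟨a, ha⟩ : ∃ a, a = Nat.findGreatest P c := ⟨_, rfl⟩
  have hPa : P a := by
    rw [ha]
    exact Nat.findGreatest_spec (by omega : 2 ≤ c) hP2
  have ha2 : 2 ≤ a := by
    rw [ha]
    exact Nat.le_findGreatest (by omega) hP2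
  have hac : a ≤ c := by
    rw [ha]
    exact Nat.findGreatest_le c
  have hdeg : ∀ k, P k → (minpoly L (om k)).natDegree ≤ 2 := by
    intro k hk
    have h1 := natDegree_le_card (L := L) (om k) {om k, σ1 (om k)} (by
      intro σ
      rw [Finset.mem_insert, Finset.mem_singleton]
      by_cases h2 : σ (om 2) = om 2
      · exact Or.inl (hk σ h2)
      · right
        have h3 : (σ1⁻¹ * σ) (om 2) = om 2 := by
          rw [AlgEquiv.mul_apply, hmove σ h2, ← hmove σ1 hσ1]
          exact AlgEquiv.symm_apply_apply σ1 _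
        have h4 := hk _ h3
        rw [AlgEquiv.mul_apply] at h4
        have h5 := congrArg σ1 h4
        rw [← h5]
        exact (AlgEquiv.apply_symm_apply σ1 _).symm)
    exact h1.trans Finset.card_le_two
  -- powers
  have hpow : ∀ k ≤ c, ∀ j ≤ k, ∃ i, om j = om k ^ i := by
    intro k hk j hj
    refine ⟨2 ^ (k - j), ?_⟩
    rw [homk, homk, ← pow_mul, ← pow_add]
    congr 2
    omega
  have hfact : ∀ e', 2 ^ e' ∣ d → e' ≤ d.factorization 2 := fun e' he' =>
    (Nat.prime_two.pow_dvd_iff_le_factorization hd0).1 he'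
  -- the automorphism
  obtain ⟨σ, hσ, hσa⟩ : ∃ σ : M ≃ₐ[L] M, σ (om 2) ≠ om 2 ∧
      (n / 2 = 0 ∨ (a < c ∧ σ (om (a + 1)) * om (a + 1) ≠ 1)) := by
    by_cases hn : n / 2 = 0
    · exact ⟨σ1, hσ1, Or.inl hn⟩
    · have hlt : a < c := by
        rcases hac.lt_or_eq with h1 | h1
        · exact h1
        · exfalso
          have h2 := hdeg a hPa
          have h3 := dvd_of_root (R := R) (L := L) (n := n) (q := 1) (by positivity) hd (om a)
            (hprim a hac) (by omega)
          rw [pow_one, Nat.factorial_one, mul_one] at h3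
          have h4 := hfact a h3
          omega
      have hnP : ¬ P (a + 1) := by
        rw [ha] at hlt ⊢
        exact Nat.findGreatest_is_greatest (Nat.lt_succ_self _) hlt
      obtain ⟨g0, hg0, hg0'⟩ : ∃ g : M ≃ₐ[L] M, g (om 2) = om 2 ∧ g (om (a + 1)) ≠ om (a + 1) := by
        by_contra hcon
        push Not at hcon
        exact hnP hcon
      by_cases h1 : σ1 (om (a + 1)) * om (a + 1) = 1
      · refine ⟨σ1 * g0, ?_, Or.inr ⟨hlt, ?_⟩⟩
        · rw [AlgEquiv.mul_apply, hg0]
          exact hσ1
        · intro h2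
          rw [AlgEquiv.mul_apply] at h2
          have h3 : om (a + 1) ≠ 0 := (hprim (a + 1) hlt).ne_zero (by positivity)
          have h4 := mul_right_cancel₀ h3 (h2.trans h1.symm)
          exact hg0' (σ1.injective h4)
      · exact ⟨σ1, hσ1, Or.inr ⟨hlt, h1⟩⟩
  obtain ⟨h, hh⟩ := hact σ
  refine good_of M σ (2 ^ c) (by positivity) ζ hζ h hh ?_
  intro p hpf hlp hmod
  have hp : p.Prime := hpf.out
  have hp4 : p % 4 = 3 := by
    have h1 : ¬ 2 ^ 2 ∣ p - 1 := by
      intro h2
      apply hσ
      rw [homk]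
      have h3 := (fix_iff' hζ (by norm_num) (by omega : 2 ≤ c) σ hh hp hmod 1).2 (by
        rw [pow_one]
        exact h2)
      rwa [pow_one] at h3
    have h2 : p % 2 = 1 := by
      rcases hp.eq_two_or_odd with h3 | h3
      · omega
      · exact h3
    norm_num at h1
    omega
  obtain ⟨b, hb⟩ : ∃ b, b = padicValNat 2 (p + 1) := ⟨_, rfl⟩
  rw [val_GL 2 p n Nat.prime_two hlp.ne', Finset.sum_congr rfl
    (fun i _ => val_2b p b hp hp4 hb.symm (i + 1) (Nat.succ_pos i)), sum_2b b n]
  -- the finite group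
  have hne2 : ∀ k, 2 ≤ k → k ≤ c → σ (om k) ≠ om k := by
    intro k hk1 hk2 h1
    obtain ⟨i, hi⟩ := hpow k hk2 2 hk1
    apply hσ
    rw [hi, map_pow, h1]
  have hσσ : σ (σ (om a)) = om a := by
    have h1 := hPa (σ * σ) (by
      rw [AlgEquiv.mul_apply, hmove σ hσ, map_neg, hmove σ hσ, neg_neg])
    exact h1
  have hσh : σ (om a) = om a ^ h := by
    rw [homk]
    exact act_pow σ hh _
  have hR1 : (1 : R) ≠ -1 := by
    intro h1
    have h2 : (2 : R) = 0 := by
      have : (2 : R) = 1 + 1 := by norm_num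
      rw [this]
      nth_rewrite 2 [h1]
      ring
    exact two_ne_zero h2
  have hdvd : (2 ^ a * 2) ^ (n / 2) * (n / 2).factorial * 2 ^ (n % 2) ∣ d := by
    rcases Nat.mod_two_eq_zero_or_one n with h1 | h1
    · rw [h1, pow_zero, mul_one]
      apply dvd_of_root2 (R := R) (L := L) (n := n) (by positivity) hd (om a) (hprim a hac) σ hσh
        hσσ (hne2 a ha2 hac)
      have := hdeg a hPa
      have h2 : n = n / 2 * 2 := by omega
      calc n / 2 * (minpoly L (om a)).natDegree ≤ n / 2 * 2 := Nat.mul_le_mul_left _ this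
        _ ≤ n := by omega
    · rw [h1, pow_one]
      apply dvd_of_root3 (R := R) (L := L) (n := n) (by positivity) hR1 hd (om a) (hprim a hac) σ
        hσh hσσ (hne2 a ha2 hac)
      have := hdeg a hPa
      calc n / 2 * (minpoly L (om a)).natDegree ≤ n / 2 * 2 := Nat.mul_le_mul_left _ this
        _ < n := by omega
  have hne : (2 ^ a * 2) ^ (n / 2) * (n / 2).factorial * 2 ^ (n % 2) ≠ 0 :=
    mul_ne_zero (mul_ne_zero (by positivity) (Nat.factorial_ne_zero _)) (by positivity)
  have h5 := (Nat.factorization_le_iff_dvd hne hd0).2 hdvd 2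
  have h6 : ((2 ^ a * 2) ^ (n / 2) * (n / 2).factorial * 2 ^ (n % 2)).factorization 2 =
      (a + 1) * (n / 2) + padicValNat 2 (n / 2).factorial + n % 2 := by
    rw [Nat.factorization_mul (mul_ne_zero (by positivity) (Nat.factorial_ne_zero _))
      (by positivity), Finsupp.add_apply, Nat.factorization_mul (by positivity)
      (Nat.factorial_ne_zero _), Finsupp.add_apply, ← pow_succ, ← pow_mul,
      Nat.prime_two.factorization_pow, Finsupp.single_eq_same, Nat.factorization_def _ Nat.prime_two,
      Nat.prime_two.factorization_pow, Finsupp.single_eq_same]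
  rw [h6] at h5
  have hp1 : p + 1 ≠ 0 := by omega
  -- the bounds for `b`
  have hba : n / 2 = 0 ∨ b ≤ a := by
    rcases hσa with h1 | ⟨h1, h2⟩
    · exact Or.inl h1
    · right
      have h3 : ¬ 2 ^ (a + 1) ∣ p + 1 := by
        intro h4
        apply h2
        rw [homk]
        exact (inv_iff hζ h1 σ hh hmod).2 h4
      rw [padicValNat_dvd_iff_le hp1] at h3
      omega
  rcases he with he | ⟨he, hNR⟩
  · rw [he]
    rcases hba with h7 | h7
    · rw [h7] at h5 ⊢
      omega
    · nlinarith
  · -- the non-real case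
    obtain ⟨F, iF, aF, ζF, hF, x, hx⟩ := hNR
    obtain ⟨z, hz, hzx⟩ := nr_transport (by positivity) ζF hF x hx (om s) (hprim s (by omega))
    have hz0 : z ≠ 0 := hz.ne_zero (by positivity)
    have hgz : ∀ g : M ≃ₐ[L] M, g z = z ∨ g z * z = -1 := by
      intro g
      have hgz0 : g z ≠ 0 := by
        rw [Ne, map_eq_zero_iff g g.injective]
        exact hz0
      have h1 : g z - (g z)⁻¹ = z - z⁻¹ := by
        have h2 := g.commutes x
        rw [hzx, map_sub, map_inv₀] at h2
        exact h2
      have h2 : (g z - z) * (g z * z + 1) = 0 := by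
        field_simp at h1
        linear_combination h1
      rcases mul_eq_zero.1 h2 with h3 | h3
      · exact Or.inl (sub_eq_zero.1 h3)
      · exact Or.inr (eq_neg_of_add_eq_zero_left h3)
    -- `om 2` and the fourth root of unity generated by `z`
    have hw : IsPrimitiveRoot (z ^ 2 ^ (s - 2)) (2 ^ 2) := by
      apply hz.pow (by positivity)
      rw [← pow_add]
      congr 1
      omega
    have hww : z ^ 2 ^ (s - 2) * z ^ 2 ^ (s - 2) = -1 := sq_om2 hz hs2
    have h2w : om 2 = z ^ 2 ^ (s - 2) ∨ om 2 = -z ^ 2 ^ (s - 2) := eq_or_neg hsq hww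
    have hfixw : ∀ g : M ≃ₐ[L] M, g z = z → g (om 2) = om 2 := by
      intro g hg
      rcases h2w with h8 | h8
      · rw [h8, map_pow, hg]
      · rw [h8, map_neg, map_pow, hg]
    have hσz : σ z ≠ z := fun h8 => hσ (hfixw σ h8)
    have hσz' : σ z * z = -1 := (hgz σ).resolve_left hσz
    have hs3 : 3 ≤ s := by
      by_contra hcon
      have h8 : s = 2 := by omega
      have h9 : z * z = -1 := by
        have h10 := hww
        rw [h8] at h10
        simpa using h10
      exact hσz (mul_right_cancel₀ hz0 (hσz'.trans h9.symm))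
    have hPs : P s := by
      intro g hg
      have hgw : g (z ^ 2 ^ (s - 2)) = z ^ 2 ^ (s - 2) := by
        rcases h2w with h8 | h8
        · rw [← h8, hg]
        · have h9 : z ^ 2 ^ (s - 2) = -om 2 := by rw [h8, neg_neg]
          rw [h9, map_neg, hg]
      have hgz1 : g z = z := by
        rcases hgz g with h8 | h8
        · exact h8
        · exfalso
          have h9 : (g z * z) ^ 2 ^ (s - 2) = 1 := by
            rw [h8]
            apply Even.neg_one_pow
            exact (even_two.pow_of_ne_zero (by omega))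
          rw [mul_pow, ← map_pow, hgw, hww] at h9
          have h10 : (2 : M) = 0 := by linear_combination -h9
          exact two_ne_zero h10
      have hNe : NeZero (2 ^ s) := ⟨by positivity⟩
      obtain ⟨i, -, hi⟩ := hz.eq_pow_of_pow_eq_one (hprim s (by omega)).pow_eq_one
      rw [← hi, map_pow, hgz1]
    have hsa : s ≤ a := by
      rw [ha]
      exact Nat.le_findGreatest (by omega) hPs
    have hbs : ¬ 2 ^ s ∣ p + 1 := by
      intro h8
      have h9 : σ (om s) * om s = 1 := by
        rw [homk]
        exact (inv_iff hζ (by omega : s ≤ c) σ hh hmod).2 h8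
      have hNe : NeZero (2 ^ s) := ⟨by positivity⟩
      obtain ⟨i, -, hi⟩ := (hprim s (by omega)).eq_pow_of_pow_eq_one hz.pow_eq_one
      have h10 : σ z * z = 1 := by
        rw [← hi, map_pow, ← mul_pow, h9, one_pow]
      rw [hσz'] at h10
      have h11 : (2 : M) = 0 := by linear_combination -h10
      exact two_ne_zero h11
    rw [padicValNat_dvd_iff_le hp1] at hbs
    have hb1 : b + 2 ≤ a + 1 := by omega
    rw [he, zero_add]
    have h8 := Nat.mul_le_mul_right (n / 2) hb1
    omega

end two

end Pool.Agent.Helper27.LG
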